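import Pool.Agent.Helper27_QL.StmtApp12

set_option autoImplicit false
open Matrix Set
namespace QL

theorem val_act' {ι : Type} [Fintype ι] (q : W ι) (g : Matrix ι ι ℝ) (v : ι → ℝ) :
    val (act q g) v = val q (g *ᵥ v) := by
  simp only [val, act, Prod.mk.injEq]
  constructor
  · rw [← mulVec_mulVec, ← mulVec_mulVec, dotProduct_mulVec v, ← mulVec_transpose,
      transpose_transpose]
  · rw [dotProduct_mulVec]

/-- app2 from its sub-modules -/
theorem app2 (hconj : conj4Statement) (hcurve : curve4Statement) (hlim : limit4Statement)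
    (hfin : final4Statement) : app2Statement := by
  intro g hg h1 h2
  obtain ⟨hp, hc⟩ := hconj
  obtain ⟨r, hr⟩ := hc g hg h1 h2
  set V : Set (ℝ × ℝ) := {y : ℝ × ℝ | ∃ v ∈ Prm (Fin 4), y = val (B4, L4) (g *ᵥ v)} with hV
  have hD : ((u4 r)ᵀ * g, p4) ∈ DD (closure V) := by
    intro v hv
    refine subset_closure ⟨v, hv, ?_⟩
    show val p4 (((u4 r)ᵀ * g) *ᵥ v) = val p4 (g *ᵥ v)
    rw [← mulVec_mulVec, ← val_act', hp]
  obtain ⟨U, Y, x, b, μ, α, hU, hY, hx, hC⟩ := hcurve _ isClosed_closure _ hr hD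
  obtain ⟨z, hz, h⟩ := hlim _ isClosed_closure U hU Y hY x hx b μ α hC
  exact dense_iff_closure_eq.2 (hfin _ isClosed_closure z hz h)

end QL
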