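import Pool.Agent.Helper27_QL.StmtApp3

set_option autoImplicit false
open Matrix Set
namespace QL

/-- app3 from its sub-modules -/
theorem app3 (hTL : TLB_factsStatement) (hcurve : curveBStatement) (hlim : limitBStatement)
    (hfin : finalBStatement) : app3Statement := by
  intro d hd B hB g hg h1 h2
  have hns : g ∈ ns (TLB B) := ((hTL d hd B hB).2.2 g).2 ⟨hg, h1, h2⟩
  set V : Set (ℝ × ℝ) := {y : ℝ × ℝ | ∃ v ∈ Prm (Fin d ⊕ Fin 2), y = val (QB B, LB d) (g *ᵥ v)}
    with hV
  have hD : (g, pB B) ∈ DD (closure V) := fun v hv => subset_closure ⟨v, hv, rfl⟩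
  obtain ⟨U, Y, x, b, c, o, hU, hY, hx, hC, ho⟩ := hcurve d hd B hB _ isClosed_closure g hns hD
  obtain ⟨z, hz, h⟩ := hlim d hd B hB _ isClosed_closure U hU Y hY x hx b c hC o ho
  exact dense_iff_closure_eq.2 (hfin d hd B hB _ isClosed_closure z hz h)

end QL
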