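import Pool.Agent.Helper27_QL.StmtApp3
import Pool.Agent.Helper14_QL.Tubes
import Pool.Agent.Helper60_QL.Growth

set_option autoImplicit false
set_option linter.unusedVariables false
open Matrix Polynomial Set Filter Topology
namespace QL

section
variable {d : ℕ}

theorem oB_one : oB (1 : Matrix (Fin d) (Fin d) ℝ) = 1 := by
  rw [oB, Matrix.fromBlocks_one]

theorem aB_one : aB d 1 = 1 := by
  have : (!![(1:ℝ), 0; 0, 1⁻¹] : Matrix (Fin 2) (Fin 2) ℝ) = 1 := by
    ext i j; fin_cases i <;> fin_cases j <;> simp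
  rw [aB, this, Matrix.fromBlocks_one]

theorem elim_vecMul_blocks (η : Fin d → ℝ) (A : Matrix (Fin d) (Fin d) ℝ)
    (D : Matrix (Fin 2) (Fin 2) ℝ) :
    (Sum.elim η 0 : I3 d → ℝ) ᵥ* Matrix.fromBlocks A 0 0 D = Sum.elim (η ᵥ* A) 0 := by
  rw [Matrix.vecMul_fromBlocks]
  simp

theorem LB_vecMul_blocks (A : Matrix (Fin d) (Fin d) ℝ) (D : Matrix (Fin 2) (Fin 2) ℝ) :
    LB d ᵥ* Matrix.fromBlocks A 0 0 D =
      (Sum.elim (0 : Fin d → ℝ) ((![1, 0] : Fin 2 → ℝ) ᵥ* D) : I3 d → ℝ) := by
  rw [LB, Matrix.vecMul_fromBlocks]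
  simp

theorem LB_vB (b : ℝ) : LB d ᵥ* vB d b = LB d := by
  rw [vB, LB_vecMul_blocks, LB]
  congr 1
  ext j; fin_cases j <;> simp

theorem LB_aB (c : ℝ) : LB d ᵥ* aB d c = c • LB d := by
  rw [aB, LB_vecMul_blocks, LB]
  ext j
  rcases j with j | j
  · simp
  · fin_cases j <;> simp

theorem LB_oB (o : Matrix (Fin d) (Fin d) ℝ) : LB d ᵥ* oB o = LB d := by
  rw [oB, LB_vecMul_blocks, LB, Matrix.vecMul_one]

theorem eta_vB (η : Fin d → ℝ) (b : ℝ) :
    (Sum.elim η 0 : I3 d → ℝ) ᵥ* vB d b = Sum.elim η 0 := by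
  rw [vB, elim_vecMul_blocks, Matrix.vecMul_one]

theorem eta_aB (η : Fin d → ℝ) (c : ℝ) :
    (Sum.elim η 0 : I3 d → ℝ) ᵥ* aB d c = Sum.elim η 0 := by
  rw [aB, elim_vecMul_blocks, Matrix.vecMul_one]

theorem eta_oB (η : Fin d → ℝ) (o : Matrix (Fin d) (Fin d) ℝ) :
    (Sum.elim η 0 : I3 d → ℝ) ᵥ* oB o = Sum.elim (η ᵥ* o) 0 := by
  rw [oB, elim_vecMul_blocks]

theorem tr_vecMulVec {ι : Type} [Fintype ι] (h : Matrix ι ι ℝ) (l m : ι → ℝ) :
    hᵀ * vecMulVec l m * h = vecMulVec (l ᵥ* h) (m ᵥ* h) := by
  rw [Matrix.mul_vecMulVec, Matrix.vecMulVec_mul, Matrix.mulVec_transpose]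

theorem inv_fix {ι : Type} [Fintype ι] [DecidableEq ι] {h N : Matrix ι ι ℝ} (hh : h.det = 1)
    (hN : hᵀ * N * h = N) : (h⁻¹)ᵀ * N * h⁻¹ = N := by
  have h1 : h * h⁻¹ = 1 := Matrix.mul_nonsing_inv _ (by rw [hh]; exact isUnit_one)
  have h2 : (h⁻¹)ᵀ * hᵀ = 1 := by rw [← Matrix.transpose_mul, h1, Matrix.transpose_one]
  calc (h⁻¹)ᵀ * N * h⁻¹ = (h⁻¹)ᵀ * (hᵀ * N * h) * h⁻¹ := by rw [hN]
    _ = ((h⁻¹)ᵀ * hᵀ) * N * (h * h⁻¹) := by simp only [Matrix.mul_assoc]
    _ = N := by rw [h1, h2, Matrix.one_mul, Matrix.mul_one]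

/-- the tube clause of `Comp` from its matrix version -/
theorem tl_clause (B : Matrix (Fin d) (Fin d) ℝ) {x h : M3 d} (hx : x ∈ ns (TLB B))
    (hfix1 : ∀ l : I3 d → ℝ, (∀ w, l ᵥ* uB B w = l) → ∃ c : ℝ, l = c • LB d)
    (huinv : ∀ w, (uB B w)⁻¹ = uB B (-w))
    (hR : ∀ R : Matrix (I3 d) (I3 d) ℤ,
      (∀ w, (uB B w)ᵀ * ((x⁻¹)ᵀ * im R * x⁻¹) * uB B w = (x⁻¹)ᵀ * im R * x⁻¹) →
      (h⁻¹)ᵀ * ((x⁻¹)ᵀ * im R * x⁻¹) * h⁻¹ = (x⁻¹)ᵀ * im R * x⁻¹) :
    ∀ T ∈ TLB B, ∀ w : (Fin T.k → I3 d) → ℤ,
      (∀ v, ract false T.k (uB B v) (ract false T.k x (iv w)) = ract false T.k x (iv w)) →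
      ract false T.k h (ract false T.k x (iv w)) = ract false T.k x (iv w) := by
  intro T hT
  have hT' : T = tube2 (FB B) ∨ T = tube1 (LB d) := by simpa [TLB] using hT
  rcases hT' with rfl | rfl
  · intro w hw
    change (Fin 2 → I3 d) → ℤ at w
    change ∀ v, ract false 2 (uB B v) (ract false 2 x (iv w)) = ract false 2 x (iv w) at hw
    show ract false 2 h (ract false 2 x (iv w)) = ract false 2 x (iv w)
    rw [← H14.mt_toM w, H14.ract2, H14.ract2]
    rw [hR (H14.toM w)]
    intro v
    have h1 := hw (-v)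
    rw [← H14.mt_toM w, H14.ract2, H14.ract2, huinv, neg_neg] at h1
    exact H14.mt_inj h1
  · intro w hw
    change (Fin 1 → I3 d) → ℤ at w
    change ∀ v, ract false 1 (uB B v) (ract false 1 x (iv w)) = ract false 1 x (iv w) at hw
    show ract false 1 h (ract false 1 x (iv w)) = ract false 1 x (iv w)
    have hl := hfix1 (fun a => ract false 1 x (iv w) (fun _ => a)) (by
      intro v
      ext a
      have h1 := congrFun (hw (-v)) (fun _ => a)
      rw [ract, if_neg (by simp), H14.tens1_apply, huinv, neg_neg, Matrix.mulVec_transpose] at h1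
      exact h1)
    obtain ⟨c, hc⟩ := hl
    have hw0 : w = 0 := by
      by_contra hne
      refine hx.2 (tube1 (LB d)) (by simp [TLB]) ⟨w, hne, ?_⟩
      show (tube1 (LB d)).Pi (ract false 1 x (iv w)) = 0
      have h1 := H14.kerMap_ker (Submodule.span ℝ {fun i : Fin 1 → I3 d => LB d (i 0)})
        (ract false 1 x (iv w))
      rw [Submodule.mem_span_singleton] at h1
      refine h1.2 ⟨c, ?_⟩
      ext i
      have h2 := congrFun hc (i 0)
      have h3 : (fun _ => i 0 : Fin 1 → I3 d) = i := by
        ext k; rw [Subsingleton.elim k 0]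
      simp only [h3] at h2
      rw [h2]; rfl
    subst hw0
    have h0 : iv (0 : (Fin 1 → I3 d) → ℤ) = 0 := by ext i; simp [iv]
    rw [h0]
    simp [ract]


theorem skew_fix {h : M3 d} (hh : h.det = 1) (η : Fin d → ℝ) (r : ℝ) (hr : r ≠ 0)
    (h1 : LB d ᵥ* h = r • LB d)
    (h2 : (Sum.elim η 0 : I3 d → ℝ) ᵥ* h = r⁻¹ • (Sum.elim η 0 : I3 d → ℝ)) :
    (h⁻¹)ᵀ * (vecMulVec (LB d) (Sum.elim η 0) - vecMulVec (Sum.elim η 0) (LB d)) * h⁻¹ =
      vecMulVec (LB d) (Sum.elim η 0) - vecMulVec (Sum.elim η 0) (LB d) := by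
  refine inv_fix hh ?_
  rw [Matrix.mul_sub, Matrix.sub_mul, tr_vecMulVec, tr_vecMulVec, h1, h2]
  ext i j
  simp only [Matrix.sub_apply, vecMulVec_apply, Pi.smul_apply, smul_eq_mul]
  field_simp

theorem pl_diag {ι : Type} [Fintype ι] [DecidableEq ι] {k : ℕ} (s : ι → ℝ)
    (M : Matrix ι (Fin k) ℝ) (i : Fin k → ι) :
    pl (Matrix.diagonal s * M) i = (∏ a, s (i a)) * pl M i := by
  have h1 : (Matrix.diagonal s * M).submatrix i id =
      Matrix.diagonal (fun a => s (i a)) * M.submatrix i id := by
    ext a b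
    rw [Matrix.submatrix_apply, Matrix.diagonal_mul, Matrix.diagonal_mul, Matrix.submatrix_apply]
  rw [pl, h1, Matrix.det_mul, Matrix.det_diagonal]
  rfl

theorem compB (htrich : trichBStatement) (hcone : coneBStatement) (hret : retfixBStatement)
    (hplane : planeBStatement) (hskew : skewBStatement) (hfix2 : fix2BStatement)
    (halg : algBStatement) : compBStatement := by
  intro d hd B hB x hx v γ hγ g hg hdet heq
  have hBsym : Bᵀ = B := by
    rcases hB with rfl | ⟨h2, h⟩
    · simp
    · ext i j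
      rw [transpose_apply, h, h]
      simp [eq_comm]
  obtain ⟨h_add, h_det, h_zero, -, -, -, h_adet, h_vdet, -, -, -, -, -, -, -, -⟩ := halg d B hBsym
  have huinv : ∀ w, (uB B w)⁻¹ = uB B (-w) := by
    intro w
    refine Matrix.inv_eq_left_inv ?_
    rw [← h_add, neg_add_cancel, h_zero]
  have hfix1 := (hfix2 d hd B hB).2
  rcases htrich d hd B hB x hx.1 with hI | ⟨k, hk, A, hA, M0, hM0⟩ | ⟨hd2, hBs, j0, hIII⟩
  · -- no invariant integer subspace
    refine ⟨0, fun b c hc hcl => ⟨fun _ => 1, fun t ht => ⟨by simp, ?_, ?_, ?_⟩⟩⟩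
    · rw [oB_one, det_one]
    · intro k hk hk' A hA
      exact absurd hA (hI k hk hk' A)
    · refine tl_clause B hx hfix1 huinv ?_
      intro R hR
      obtain ⟨η, h1, h2⟩ := hskew d hd B hB x hx R hR
      by_cases hR0 : R = 0
      · subst hR0
        have h0 : im (0 : Matrix (I3 d) (I3 d) ℤ) = 0 := by ext i j; simp [im]
        simp [h0]
      · obtain ⟨A, hA, -⟩ := h2 hR0
        exact absurd hA (hI d (by omega) (by omega) A)
  · -- nondegenerate invariant integer subspace
    have hev := hret d B x hx.1 (k+1) A hA v γ hγ g hg heq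
    obtain ⟨i0, hi0⟩ := eventually_atTop.1 hev
    refine ⟨i0, fun b c hc hcl => ?_⟩
    have hc1 : c = 1 := by
      have h1 : c ^ 2 = 1 := by
        apply Polynomial.funext
        intro t
        rw [eval_pow, eval_one]
        exact hcone d hd B hB k hk M0 _ hA hM0 g hdet i0 hi0 _ _ (hcl t)
      have h2 : (c - 1) * (c + 1) = 0 := by linear_combination h1
      rcases mul_eq_zero.1 h2 with h3 | h3
      · exact sub_eq_zero.1 h3
      · exfalso
        have h4 : c = -1 := eq_neg_of_add_eq_zero_left h3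
        rw [h4] at hc
        simp at hc
        norm_num at hc
    subst hc1
    refine ⟨fun _ => 1, fun t ht => ⟨by simp, ?_, ?_, ?_⟩⟩
    · rw [oB_one, det_one]
    · intro k' hk0 hk' A' hA'
      rw [oB_one, eval_one, aB_one, Matrix.one_mul, Matrix.one_mul,
        (hplane d hd B hB k' hk0 hk' _ hA').2.2]
    · rw [oB_one, eval_one, aB_one, Matrix.one_mul, Matrix.one_mul]
      refine tl_clause B hx hfix1 huinv ?_
      intro R hR
      obtain ⟨η, h1, -⟩ := hskew d hd B hB x hx R hR
      rw [h1]
      exact skew_fix (h_vdet _) η 1 one_ne_zero (by rw [LB_vB, one_smul])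
        (by rw [eta_vB, inv_one, one_smul])
  · -- isotropic plane
    refine ⟨0, fun b c hc hcl =>
      ⟨fun t => Matrix.diagonal (fun i => if i = j0 then c.eval t else (c.eval t)⁻¹),
        fun t ht => ?_⟩⟩
    set ct := c.eval t with hct
    set bt := b.eval t with hbt
    set o : Matrix (Fin d) (Fin d) ℝ :=
      Matrix.diagonal (fun i => if i = j0 then ct else ct⁻¹) with ho
    have hoB : oᵀ * B * o = B := by
      ext i j
      rw [ho, Matrix.diagonal_transpose, Matrix.mul_diagonal, Matrix.diagonal_mul, hBs]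
      by_cases hij : i = j
      · simp [hij]
      · rw [if_neg hij]
        subst hd2
        have : (i = j0 ∧ j ≠ j0) ∨ (i ≠ j0 ∧ j = j0) := by
          fin_cases i <;> fin_cases j <;> fin_cases j0 <;> simp_all
        rcases this with ⟨h1, h2⟩ | ⟨h1, h2⟩
        · rw [if_pos h1, if_neg h2]; field_simp
        · rw [if_neg h1, if_pos h2]; field_simp
    have hdo : (oB o).det = 1 := by
      rw [oB, Matrix.det_fromBlocks_zero₂₁, det_one, mul_one, ho, Matrix.det_diagonal]
      subst hd2
      rw [Fin.prod_univ_two]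
      fin_cases j0 <;> simp <;> field_simp
    have hhdet : (oB o * aB d ct * vB d bt).det = 1 := by
      rw [det_mul, det_mul, hdo, h_adet ct ht, h_vdet, mul_one, mul_one]
    refine ⟨hoB, hdo, ?_, ?_⟩
    · intro k hk hk' A hA
      obtain ⟨hk2, hrow⟩ := hIII k hk hk' A hA
      subst hk2
      set M := x * im A with hM
      set s : I3 d → ℝ := fun j => if j = Sum.inl j0 then ct else
        if j = Sum.inr 1 then ct⁻¹ else 1 with hs
      have hmul : oB o * aB d ct * vB d bt * M = Matrix.diagonal s * M := by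
        have hs0 : M (Sum.inr 0) = 0 := by
          funext a; exact hrow _ (by simp) (by simp) a
        have e1 : ∀ j a, (vB d bt * M) j a = M j a := by
          intro j a
          rw [Matrix.mul_apply, Fintype.sum_sum_type]
          rcases j with j | j
          · simp [vB, Matrix.one_apply]
          · fin_cases j
            · simp [vB]
            · simp [vB, hs0]
        have e2 : vB d bt * M = M := by ext j a; exact e1 j a
        rw [Matrix.mul_assoc, e2]
        ext j a
        rw [Matrix.diagonal_mul, Matrix.mul_assoc]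
        rw [Matrix.mul_apply, Fintype.sum_sum_type]
        have e3 : ∀ j : Fin d, (aB d ct * M) (Sum.inl j) a = M (Sum.inl j) a := by
          intro j
          rw [Matrix.mul_apply, Fintype.sum_sum_type]
          simp [aB, Matrix.one_apply]
        have e4 : (aB d ct * M) (Sum.inr 0) a = ct * M (Sum.inr 0) a := by
          rw [Matrix.mul_apply, Fintype.sum_sum_type]
          simp [aB]
        have e5 : (aB d ct * M) (Sum.inr 1) a = ct⁻¹ * M (Sum.inr 1) a := by
          rw [Matrix.mul_apply, Fintype.sum_sum_type]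
          simp [aB]
        rcases j with j | j
        · simp only [oB, Matrix.fromBlocks_apply₁₁, Matrix.fromBlocks_apply₁₂, Matrix.zero_apply,
            zero_mul, Finset.sum_const_zero, add_zero, e3]
          rw [ho]
          simp only [Matrix.diagonal_apply, ite_mul, zero_mul, Finset.sum_ite_eq, Finset.mem_univ,
            if_true]
          by_cases hj : j = j0
          · simp [hs, hj]
          · have : M (Sum.inl j) a = 0 := hrow _ (by simp [hj]) (by simp) a
            rw [this]; simp
        · simp only [oB, Matrix.fromBlocks_apply₂₁, Matrix.fromBlocks_apply₂₂, Matrix.zero_apply,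
            zero_mul, Finset.sum_const_zero, zero_add, Fin.sum_univ_two, e4, e5]
          fin_cases j
          · simp [hs, hs0]
          · simp [hs, Matrix.one_apply]
      rw [hmul]
      funext i
      rw [pl_diag, Fin.prod_univ_two]
      by_cases hz : pl M i = 0
      · rw [hz, mul_zero]
      · have hmem : ∀ a, i a = Sum.inl j0 ∨ i a = Sum.inr 1 := by
          intro a
          by_contra hcon
          push Not at hcon
          apply hz
          rw [pl]
          refine Matrix.det_eq_zero_of_row_eq_zero a fun b => ?_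
          exact hrow _ hcon.1 hcon.2 b
        have hinj : i 0 ≠ i 1 := by
          intro h01
          apply hz
          rw [pl]
          refine Matrix.det_zero_of_row_eq (i := 0) (j := 1) (by decide) ?_
          funext b
          simp only [Matrix.submatrix_apply, h01]
        have : s (i 0) * s (i 1) = 1 := by
          rcases hmem 0 with h0 | h0 <;> rcases hmem 1 with h1 | h1
          · exact absurd (h0.trans h1.symm) hinj
          · rw [h0, h1]; simp [hs]; field_simp
          · rw [h0, h1]; simp [hs]; field_simp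
          · exact absurd (h0.trans h1.symm) hinj
        rw [this, one_mul]
    · refine tl_clause B hx hfix1 huinv ?_
      intro R hR
      obtain ⟨η, h1, h2⟩ := hskew d hd B hB x hx R hR
      by_cases hR0 : R = 0
      · subst hR0
        have h0 : im (0 : Matrix (I3 d) (I3 d) ℤ) = 0 := by ext i j; simp [im]
        simp [h0]
      obtain ⟨A, hA, hLA, hηA⟩ := h2 hR0
      obtain ⟨-, hrow⟩ := hIII d (by omega) (by omega) A hA
      rw [h1]
      have hη0 : η j0 = 0 := by
        by_contra hne
        obtain ⟨i, hi⟩ := hA.1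
        have hz : ∀ a, (x * im A) (Sum.inl j0) a = 0 := by
          intro a
          have h3 := congrFun hηA a
          rw [vecMul, dotProduct, Fintype.sum_sum_type] at h3
          simp only [Sum.elim_inl, Sum.elim_inr, Pi.zero_apply, zero_mul, Finset.sum_const_zero,
            add_zero] at h3
          rw [Finset.sum_eq_single j0] at h3
          · rcases mul_eq_zero.1 h3 with h4 | h4
            · exact absurd h4 hne
            · exact h4
          · intro b _ hb
            rw [hrow (Sum.inl b) (by simp [hb]) (by simp) a, mul_zero]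
          · intro h; exact absurd (Finset.mem_univ _) h
        -- all rows except inr 1 vanish, so the Pluecker vector is zero
        apply hi
        rw [pl]
        subst hd2
        by_cases h01 : i 0 = i 1
        · refine Matrix.det_zero_of_row_eq (i := 0) (j := 1) (by decide) ?_
          funext b
          simp only [Matrix.submatrix_apply, h01]
        · have hnot : i 0 ≠ Sum.inr 1 ∨ i 1 ≠ Sum.inr 1 := by
            by_contra hcon
            push Not at hcon
            exact h01 (hcon.1.trans hcon.2.symm)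
          have hrz : ∀ j, j ≠ Sum.inr 1 → ∀ a, (x * im A) j a = 0 := by
            intro j hj a
            by_cases hj0 : j = Sum.inl j0
            · rw [hj0]; exact hz a
            · exact hrow j hj0 hj a
          rcases hnot with h5 | h5
          · exact Matrix.det_eq_zero_of_row_eq_zero 0 fun b => hrz _ h5 b
          · exact Matrix.det_eq_zero_of_row_eq_zero 1 fun b => hrz _ h5 b
      refine skew_fix hhdet η ct ht ?_ ?_
      · rw [← Matrix.vecMul_vecMul, ← Matrix.vecMul_vecMul, LB_oB, LB_aB, Matrix.smul_vecMul, LB_vB]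
      · rw [← Matrix.vecMul_vecMul, ← Matrix.vecMul_vecMul, eta_oB, eta_aB, eta_vB]
        ext j
        rcases j with j | j
        · simp only [Sum.elim_inl, Pi.smul_apply, smul_eq_mul]
          rw [ho, Matrix.vecMul_diagonal]
          by_cases hj : j = j0
          · rw [hj, hη0]; simp
          · rw [if_neg hj, mul_comm]
        · simp
end

end QL
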