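import Mathlib

/-!
# Common definitions for MP_6429f2_nt (S17215), blueprint of helper27

All lattices are written as `x * Z^ι` with `x` a real matrix of determinant one; two matrices
`x`, `x * γ` (`γ ∈ Gam ι`) give the same lattice.  No quotient spaces and no measures on `G / Γ`
are used.  The file contains definitions only.
-/

set_option autoImplicit false
open Matrix Polynomial MeasureTheory Set Filter Topology

namespace QL

/-- entrywise evaluation of a matrix of polynomials -/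
noncomputable def ev {ι κ : Type} (P : Matrix ι κ ℝ[X]) (t : ℝ) : Matrix ι κ ℝ :=
  P.map (fun p => Polynomial.eval t p)

/-- `SL(Z)` inside the real matrices -/
def Gam (ι : Type) [Fintype ι] [DecidableEq ι] : Set (Matrix ι ι ℝ) :=
  {γ | γ.det = 1 ∧ ∀ i j, ∃ m : ℤ, γ i j = m}

/-- primitive integer vectors, as real vectors -/
def Prm (ι : Type) [Fintype ι] : Set (ι → ℝ) :=
  {v | ∃ w : ι → ℤ, Finset.univ.gcd w = 1 ∧ ∀ i, v i = w i}

/-- the cast of an integer tensor -/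
def iv {κ : Type} (w : κ → ℤ) : κ → ℝ := fun i => (w i : ℝ)

/-- the cast of an integer matrix -/
def im {ι κ : Type} (A : Matrix ι κ ℤ) : Matrix ι κ ℝ := fun i j => (A i j : ℝ)

/-- `k`-th tensor power of a matrix -/
def tens {ι : Type} (k : ℕ) (A : Matrix ι ι ℝ) : Matrix (Fin k → ι) (Fin k → ι) ℝ :=
  fun i j => ∏ a, A (i a) (j a)

/-- action of `g` on `k`-fold tensors of vectors (`b = true`) or of covectors (`b = false`,
i.e. action by the inverse transpose) -/
noncomputable def ract {ι : Type} [Fintype ι] [DecidableEq ι] (b : Bool) (k : ℕ)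
    (g : Matrix ι ι ℝ) (w : (Fin k → ι) → ℝ) : (Fin k → ι) → ℝ :=
  tens k (if b then g else (g⁻¹)ᵀ) *ᵥ w

/-- A tube: a subspace `F = ker Pi` of the `k`-fold tensors of covectors. -/
structure Tube (ι : Type) where
  k : ℕ
  Pi : ((Fin k → ι) → ℝ) →ₗ[ℝ] ((Fin k → ι) → ℝ)

/-- `g` is singular for the tube: the lattice of integer covector tensors of `g` meets `F`. -/
def Sing {ι : Type} [Fintype ι] [DecidableEq ι] (T : Tube ι) (g : Matrix ι ι ℝ) : Prop :=
  ∃ w : (Fin T.k → ι) → ℤ, w ≠ 0 ∧ T.Pi (ract false T.k g (iv w)) = 0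

/-- nonsingular matrices of determinant one for a list of tubes -/
def ns {ι : Type} [Fintype ι] [DecidableEq ι] (L : List (Tube ι)) : Set (Matrix ι ι ℝ) :=
  {g | g.det = 1 ∧ ∀ T ∈ L, ¬ Sing T g}

/-- Uniqueness property of a list of tubes: outside the singular sets of the LATER tubes of the
list (the tail) two integer tensors landing in `F` are linearly dependent. -/
def UniqL {ι : Type} [Fintype ι] [DecidableEq ι] : List (Tube ι) → Prop
  | [] => True
  | T :: L => UniqL L ∧ ∀ g ∈ ns L, ∀ w w' : (Fin T.k → ι) → ℤ,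
      T.Pi (ract false T.k g (iv w)) = 0 → T.Pi (ract false T.k g (iv w')) = 0 →
      ∃ a b : ℤ, (a ≠ 0 ∨ b ≠ 0) ∧ a • w + b • w' = 0

/-- nondivergence hypothesis on `[0,1]`: every rational subspace has somewhere on `[0,1]` some
`k × k` minor of absolute value at least `κ` -/
def ND {ι : Type} [Fintype ι] [DecidableEq ι] (κ : ℝ) (φ : ℝ → Matrix ι ι ℝ) : Prop :=
  ∀ k : ℕ, 0 < k → k < Fintype.card ι → ∀ A : Matrix ι (Fin k) ℤ,
    (∃ i : Fin k → ι, (A.submatrix i id).det ≠ 0) →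
    ∃ τ ∈ Icc (0 : ℝ) 1, ∃ i : Fin k → ι, κ ≤ |((φ τ * im A).submatrix i id).det|

/-- tube hypothesis on `[0,1]` up to radius `R0` -/
def Hc {ι : Type} [Fintype ι] [DecidableEq ι] (L : List (Tube ι)) (δ : ℕ → ℝ) (R0 : ℕ)
    (φ : ℝ → Matrix ι ι ℝ) : Prop :=
  ∀ T ∈ L, ∀ R : ℕ, R ≤ R0 → ∀ w : (Fin T.k → ι) → ℤ, w ≠ 0 → ∃ τ ∈ Icc (0 : ℝ) 1,
    (∃ c, (R : ℝ) ≤ |ract false T.k (φ τ) (iv w) c|) ∨
    (∃ c, δ R ≤ |T.Pi (ract false T.k (φ τ) (iv w)) c|)

/-- A unipotent action: a polynomial homomorphism from `R^d` to matrices of determinant one. -/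
structure UAct (ι : Type) [Fintype ι] [DecidableEq ι] (d : ℕ) where
  pol : Matrix ι ι (MvPolynomial (Fin d) ℝ)
  u : (Fin d → ℝ) → Matrix ι ι ℝ
  spec : ∀ w i j, u w i j = MvPolynomial.eval w (pol i j)
  det_one : ∀ w, (u w).det = 1
  add : ∀ w w', u (w + w') = u w * u w'

/-- closed sets of lattices invariant under the action -/
structure Inv {ι : Type} [Fintype ι] [DecidableEq ι] {d : ℕ} (U : UAct ι d)
    (X : Set (Matrix ι ι ℝ)) : Prop where
  closed : IsClosed X
  det_one : ∀ x ∈ X, x.det = 1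
  left : ∀ w, ∀ x ∈ X, U.u w * x ∈ X
  right : ∀ γ ∈ Gam ι, ∀ x ∈ X, x * γ ∈ X

/-- Return property of `x` to the points of `Y`: in every direction and in every proportional
window the orbit of `x` comes close (modulo `Gam`) to every point of `Y`. -/
def Ret {ι : Type} [Fintype ι] [DecidableEq ι] {d : ℕ} (U : UAct ι d)
    (Y : Set (Matrix ι ι ℝ)) (x : Matrix ι ι ℝ) : Prop :=
  ∀ x' ∈ Y, ∀ ω : Fin d → ℝ, ω ≠ 0 → ∀ η > 0, ∃ T0 : ℝ, ∀ T ≥ T0, ∃ w : Fin d → ℝ,
    ‖w - T • ω‖ ≤ η * T ∧ ∃ γ ∈ Gam ι, ∀ i j, |(U.u w * x * γ - x') i j| < η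

/-- pairs (quadratic form, linear form) -/
abbrev W (ι : Type) := Matrix ι ι ℝ × (ι → ℝ)

/-- `act q g = q ∘ g` -/
def act {ι : Type} [Fintype ι] (q : W ι) (g : Matrix ι ι ℝ) : W ι :=
  (gᵀ * q.1 * g, q.2 ᵥ* g)

/-- the pair of values at a vector -/
def val {ι : Type} [Fintype ι] (q : W ι) (v : ι → ℝ) : ℝ × ℝ :=
  (v ⬝ᵥ q.1 *ᵥ v, q.2 ⬝ᵥ v)

/-- pairs (lattice, form) whose primitive values lie in `S` -/
def DD {ι : Type} [Fintype ι] (S : Set (ℝ × ℝ)) : Set (Matrix ι ι ℝ × W ι) :=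
  {y | ∀ v ∈ Prm ι, val y.2 (y.1 *ᵥ v) ∈ S}

end QL

namespace QL

/-! ### explicit tubes -/

/-- a linear endomorphism with kernel `F` -/
noncomputable def kerMap {E : Type} [AddCommGroup E] [Module ℝ E] (F : Submodule ℝ E) :
    E →ₗ[ℝ] E :=
  (F.exists_isCompl.choose.subtype).comp
    ((F.exists_isCompl.choose.projectionOnto F F.exists_isCompl.choose_spec.symm))

/-- the tube of a covector `l`: `F = ℝ l` -/
noncomputable def tube1 {ι : Type} (l : ι → ℝ) : Tube ι where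
  k := 1
  Pi := kerMap (Submodule.span ℝ {fun i : Fin 1 → ι => l (i 0)})

/-- matrices as 2-tensors -/
def mt {ι : Type} : Matrix ι ι ℝ →ₗ[ℝ] ((Fin 2 → ι) → ℝ) where
  toFun M := fun i => M (i 0) (i 1)
  map_add' _ _ := rfl
  map_smul' _ _ := rfl

/-- the tube of a space of bilinear forms -/
noncomputable def tube2 {ι : Type} (F : Submodule ℝ (Matrix ι ι ℝ)) : Tube ι where
  k := 2
  Pi := kerMap (F.map mt)

end QL
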