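import Pool.Agent.Helper27_QL.Stmt
set_option autoImplicit false
open Matrix
namespace QL

/-- `Q | ker L` has rank at least three -/
def rank3Statement : Prop :=
  ∀ (n : ℕ) (Q : Matrix (Fin n) (Fin n) ℝ) (L : Fin n → ℝ) (hQ : Qᵀ = Q) (hdet : Q.det ≠ 0)
    (hL : L ≠ 0) (h : 5 ≤ n ∨ (4 ≤ n ∧ ∀ k, L ⬝ᵥ k = 0 → (∀ k', L ⬝ᵥ k' = 0 → k ⬝ᵥ Q *ᵥ k' = 0) → k = 0)),
    ∃ V : Matrix (Fin n) (Fin 3) ℝ, L ᵥ* V = 0 ∧ (Vᵀ * Q * V).det ≠ 0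

theorem prm_iff {n : ℕ} (S : Set (ℝ × ℝ)) (A : Matrix (Fin n) (Fin n) ℝ) (l : Fin n → ℝ) :
    {p : ℝ × ℝ | ∃ x : Fin n → ℤ, x ≠ 0 ∧ Finset.univ.gcd x = 1 ∧
      p = ((fun i => (x i : ℝ)) ⬝ᵥ A *ᵥ (fun i => (x i : ℝ)),
           l ⬝ᵥ (fun i => (x i : ℝ)))} = {y : ℝ × ℝ | ∃ v ∈ Prm (Fin n), y = val (A, l) v} := by
  ext p
  constructor
  · rintro ⟨x, hx0, hx1, rfl⟩
    exact ⟨fun i => (x i : ℝ), ⟨x, hx1, fun i => rfl⟩, rfl⟩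
  · rintro ⟨v, ⟨x, hx1, hx⟩, rfl⟩
    have hv : v = fun i => (x i : ℝ) := funext hx
    refine ⟨x, ?_, hx1, by rw [hv]; rfl⟩
    rintro rfl
    have : Finset.univ.gcd (0 : Fin n → ℤ) = 0 := Finset.gcd_eq_zero_iff.2 (by simp)
    rw [this] at hx1
    exact absurd hx1 (by norm_num)

end QL

namespace Pool.MP_6429f2_nt
open QL

theorem final (hrank : rank3Statement) (hpair : pair4Statement) (hred : reduce4Statement)
    (hdeg : pairdegStatement) :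
    ∀ n : ℕ, 4 ≤ n →
    ∀ A : Matrix (Fin n) (Fin n) ℝ, A.IsSymm → A.det ≠ 0 →
    ∀ l : Fin n → ℝ, l ≠ 0 →
    (∀ β : ℝ, (∃ x : Fin n → ℝ, 0 < x ⬝ᵥ A *ᵥ x + β * (l ⬝ᵥ x) ^ 2) ∧
              (∃ y : Fin n → ℝ, y ⬝ᵥ A *ᵥ y + β * (l ⬝ᵥ y) ^ 2 < 0)) →
    (∀ α β : ℝ, (α, β) ≠ (0, 0) →
      ¬ ∃ c : ℝ, ∃ B : Matrix (Fin n) (Fin n) ℚ,
        α • A + β • Matrix.vecMulVec l l = c • B.map (fun q : ℚ => (q : ℝ))) →
    Dense {p : ℝ × ℝ | ∃ x : Fin n → ℤ, x ≠ 0 ∧ Finset.univ.gcd x = 1 ∧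
      p = ((fun i => (x i : ℝ)) ⬝ᵥ A *ᵥ (fun i => (x i : ℝ)),
           l ⬝ᵥ (fun i => (x i : ℝ)))} := by
  intro n hn A hA hdet l hl h1 h2
  rw [prm_iff ∅]
  have hA' : Aᵀ = A := hA
  have hsym : ∀ x y : Fin n → ℝ, x ⬝ᵥ A *ᵥ y = y ⬝ᵥ A *ᵥ x := by
    intro x y
    rw [dotProduct_mulVec, ← mulVec_transpose, hA', dotProduct_comm]
  by_cases hnd : ∀ k, l ⬝ᵥ k = 0 → (∀ k', l ⬝ᵥ k' = 0 → k ⬝ᵥ A *ᵥ k' = 0) → k = 0
  · -- nondegenerate on the kernel: indefinite by condition 1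
    -- pole
    obtain ⟨e, he, hle⟩ : ∃ e : Fin n → ℝ, (∀ k, l ⬝ᵥ k = 0 → k ⬝ᵥ A *ᵥ e = 0) ∧ l ⬝ᵥ e = 1 := by
      -- e0 = A⁻¹ l
      have hu : IsUnit A.det := isUnit_iff_ne_zero.2 hdet
      set e0 : Fin n → ℝ := A⁻¹ *ᵥ l with he0
      have hAe : A *ᵥ e0 = l := by
        rw [he0, mulVec_mulVec, Matrix.mul_nonsing_inv _ hu, one_mulVec]
      have h0 : ∀ k, l ⬝ᵥ k = 0 → k ⬝ᵥ A *ᵥ e0 = 0 := by
        intro k hk
        rw [hAe, dotProduct_comm]; exact hk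
      have hne : l ⬝ᵥ e0 ≠ 0 := by
        intro h
        have := hnd e0 h (fun k' hk' => by rw [hsym]; exact h0 k' hk')
        rw [this, mulVec_zero] at hAe
        exact hl hAe.symm
      refine ⟨(l ⬝ᵥ e0)⁻¹ • e0, ?_, ?_⟩
      · intro k hk
        rw [mulVec_smul, dotProduct_smul, h0 k hk, smul_zero]
      · rw [dotProduct_smul, smul_eq_mul, inv_mul_cancel₀ hne]
    have key : ∀ x : Fin n → ℝ, l ⬝ᵥ (x - (l ⬝ᵥ x) • e) = 0 ∧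
        x ⬝ᵥ A *ᵥ x = (x - (l ⬝ᵥ x) • e) ⬝ᵥ A *ᵥ (x - (l ⬝ᵥ x) • e) +
          (e ⬝ᵥ A *ᵥ e) * (l ⬝ᵥ x)^2 := by
      intro x
      have hk : l ⬝ᵥ (x - (l ⬝ᵥ x) • e) = 0 := by
        rw [dotProduct_sub, dotProduct_smul, hle]; simp
      refine ⟨hk, ?_⟩
      have h3 := he _ hk
      have h4 : x = (x - (l ⬝ᵥ x) • e) + (l ⬝ᵥ x) • e := by abel
      set k := x - (l ⬝ᵥ x) • e with hkdef
      set t := l ⬝ᵥ x with ht
      rw [h4]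
      rw [mulVec_add, add_dotProduct, dotProduct_add, dotProduct_add, mulVec_smul, smul_dotProduct,
        smul_dotProduct, dotProduct_smul, dotProduct_smul, h3, hsym e k, h3]
      simp only [smul_eq_mul]; ring
    have hpos : ∃ k, l ⬝ᵥ k = 0 ∧ 0 < k ⬝ᵥ A *ᵥ k := by
      by_contra hcon
      push Not at hcon
      obtain ⟨⟨x, hx⟩, -⟩ := h1 (-(e ⬝ᵥ A *ᵥ e))
      obtain ⟨hk, hq⟩ := key x
      have := hcon _ hk
      rw [hq] at hx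
      linarith
    have hneg : ∃ k, l ⬝ᵥ k = 0 ∧ k ⬝ᵥ A *ᵥ k < 0 := by
      by_contra hcon
      push Not at hcon
      obtain ⟨-, ⟨x, hx⟩⟩ := h1 (-(e ⬝ᵥ A *ᵥ e))
      obtain ⟨hk, hq⟩ := key x
      have := hcon _ hk
      rw [hq] at hx
      linarith
    obtain ⟨M, hM1, hM2, hM3, hM4, hM5, hM6⟩ :=
      hred n hn A l hA' hl (hrank n A l hA' hdet hl (Or.inr ⟨hn, hnd⟩)) hpos hneg h2
    have := hpair ((QL.im M)ᵀ * A * QL.im M) (l ᵥ* QL.im M)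
      (by rw [transpose_mul, transpose_mul, transpose_transpose, hA', Matrix.mul_assoc])
      hM2 hM3 hM4 hM5 hM6
    refine this.mono ?_
    rintro y ⟨v, hv, rfl⟩
    refine ⟨QL.im M *ᵥ v, hM1 v hv, ?_⟩
    simp only [val, Prod.mk.injEq]
    constructor
    · rw [← mulVec_mulVec, ← mulVec_mulVec, dotProduct_mulVec v, ← mulVec_transpose,
        transpose_transpose]
    · rw [dotProduct_mulVec]
  · push Not at hnd
    obtain ⟨e, heL, he, he0⟩ := hnd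
    by_cases hcase : n = 4 ∨ (∀ k, l ⬝ᵥ k = 0 → 0 ≤ k ⬝ᵥ A *ᵥ k) ∨
        (∀ k, l ⬝ᵥ k = 0 → k ⬝ᵥ A *ᵥ k ≤ 0)
    · exact hdeg n hn A l hA' hdet hl e he0 heL he hcase h2
    · push Not at hcase
      obtain ⟨hn4, ⟨k1, hk1, hk1'⟩, ⟨k2, hk2, hk2'⟩⟩ := hcase
      obtain ⟨M, hM1, hM2, hM3, hM4, hM5, hM6⟩ :=
        hred n hn A l hA' hl (hrank n A l hA' hdet hl (Or.inl (by omega)))
          ⟨k2, hk2, hk2'⟩ ⟨k1, hk1, hk1'⟩ h2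
      have := hpair ((QL.im M)ᵀ * A * QL.im M) (l ᵥ* QL.im M)
        (by rw [transpose_mul, transpose_mul, transpose_transpose, hA', Matrix.mul_assoc])
        hM2 hM3 hM4 hM5 hM6
      refine this.mono ?_
      rintro y ⟨v, hv, rfl⟩
      refine ⟨QL.im M *ᵥ v, hM1 v hv, ?_⟩
      simp only [val, Prod.mk.injEq]
      constructor
      · rw [← mulVec_mulVec, ← mulVec_mulVec, dotProduct_mulVec v, ← mulVec_transpose,
          transpose_transpose]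
      · rw [dotProduct_mulVec]

end Pool.MP_6429f2_nt
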