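import Pool.Agent.Helper27_QL.StmtApp12

set_option autoImplicit false
open Matrix Set Filter Topology
namespace QL

theorem tens_diag {ι : Type} [Fintype ι] [DecidableEq ι] (k : ℕ) (s : ι → ℝ)
    (v : (Fin k → ι) → ℝ) (i : Fin k → ι) :
    (tens k (Matrix.diagonal s) *ᵥ v) i = (∏ a, s (i a)) * v i := by
  rw [mulVec, dotProduct, Finset.sum_eq_single i]
  · simp [tens]
  · intro j _ hj
    obtain ⟨a, ha⟩ := Function.ne_iff.1 hj
    have : (∏ a, Matrix.diagonal s (i a) (j a)) = 0 :=
      Finset.prod_eq_zero (Finset.mem_univ a) (Matrix.diagonal_apply_ne _ (Ne.symm ha))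
    rw [tens, this, zero_mul]
  · intro h; exact absurd (Finset.mem_univ _) h

theorem ract_diag : ract_diagStatement := by
  intro ι _ _ wt l hl b k v i
  cases b
  · have h1 : ((Matrix.diagonal (fun j => l ^ (wt j)))⁻¹)ᵀ =
        Matrix.diagonal (fun j => (l ^ (wt j))⁻¹) := by
      have h2 : (Matrix.diagonal (fun j => l ^ (wt j)))⁻¹ =
          Matrix.diagonal (fun j => (l ^ (wt j))⁻¹) := by
        refine Matrix.inv_eq_left_inv ?_
        rw [Matrix.diagonal_mul_diagonal, ← Matrix.diagonal_one]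
        congr 1
        funext j
        exact inv_mul_cancel₀ (zpow_pos hl _).ne'
      rw [h2, Matrix.diagonal_transpose]
    rw [ract, if_neg (by simp), h1, tens_diag, if_neg (by simp)]
    congr 1
    rw [_root_.zpow_neg, Finset.prod_inv_distrib]
    congr 1
    induction (Finset.univ : Finset (Fin k)) using Finset.induction_on with
    | empty => simp
    | insert a s ha ih => rw [Finset.prod_insert ha, Finset.sum_insert ha, zpow_add₀ hl.ne', ih]
  · rw [ract, if_pos rfl, tens_diag, if_pos rfl]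
    congr 1
    induction (Finset.univ : Finset (Fin k)) using Finset.induction_on with
    | empty => simp
    | insert a s ha ih => rw [Finset.prod_insert ha, Finset.sum_insert ha, zpow_add₀ hl.ne', ih]

section
set_option linter.unusedSectionVars false
variable {ι : Type} [Fintype ι] [DecidableEq ι] {k : ℕ}

/-- the derivation of the tensor power given by a matrix -/
def Dv (A : Matrix ι ι ℝ) (v : (Fin k → ι) → ℝ) (i : Fin k → ι) : ℝ :=
  ∑ a, ∑ x, A (i a) x * v (Function.update i a x)

theorem Dv_sub (A B : Matrix ι ι ℝ) (v : (Fin k → ι) → ℝ) (i : Fin k → ι) :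
    Dv (A - B) v i = Dv A v i - Dv B v i := by
  simp only [Dv, Matrix.sub_apply, sub_mul, Finset.sum_sub_distrib]

theorem Dv_diag (s : ι → ℝ) (v : (Fin k → ι) → ℝ) (i : Fin k → ι) :
    Dv (Matrix.diagonal s) v i = (∑ a, s (i a)) * v i := by
  rw [Dv, Finset.sum_mul]
  refine Finset.sum_congr rfl fun a _ => ?_
  rw [Finset.sum_eq_single (i a)]
  · rw [Matrix.diagonal_apply_eq, Function.update_eq_self]
  · intro x _ hx
    rw [Matrix.diagonal_apply_ne _ (Ne.symm hx), zero_mul]
  · intro h; exact absurd (Finset.mem_univ _) h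

theorem Dv_comp (A B : Matrix ι ι ℝ) (v : (Fin k → ι) → ℝ) (i : Fin k → ι) :
    Dv A (Dv B v) i = Dv (A * B) v i +
      ∑ a, ∑ c, if a = c then 0 else ∑ x, ∑ y, A (i a) x * (B (i c) y *
        v (Function.update (Function.update i a x) c y)) := by
  have h1 : Dv (A * B) v i = ∑ a, ∑ c, if a = c then
      (∑ x, ∑ y, A (i a) x * (B x y * v (Function.update i a y))) else 0 := by
    rw [Dv]
    refine Finset.sum_congr rfl fun a _ => ?_
    rw [Finset.sum_ite_eq, if_pos (Finset.mem_univ _)]
    rw [Finset.sum_comm]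
    refine Finset.sum_congr rfl fun y _ => ?_
    rw [Matrix.mul_apply, Finset.sum_mul]
    exact Finset.sum_congr rfl fun x _ => by ring
  rw [h1, ← Finset.sum_add_distrib]
  rw [Dv]
  refine Finset.sum_congr rfl fun a _ => ?_
  rw [← Finset.sum_add_distrib]
  have h2 : ∀ x, A (i a) x * Dv B v (Function.update i a x) =
      ∑ c, ∑ y, A (i a) x * (B (Function.update i a x c) y *
        v (Function.update (Function.update i a x) c y)) := by
    intro x
    rw [Dv, Finset.mul_sum]
    exact Finset.sum_congr rfl fun c _ => by rw [Finset.mul_sum]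
  simp only [h2]
  rw [Finset.sum_comm]
  refine Finset.sum_congr rfl fun c _ => ?_
  by_cases hac : a = c
  · subst hac
    simp only [if_true, add_zero, Function.update_self, Function.update_idem]
  · rw [if_neg hac, if_neg hac, zero_add]
    refine Finset.sum_congr rfl fun x _ => ?_
    rw [Function.update_of_ne (Ne.symm hac)]

theorem Dv_comm (A B : Matrix ι ι ℝ) (v : (Fin k → ι) → ℝ) (i : Fin k → ι) :
    Dv A (Dv B v) i - Dv B (Dv A v) i = Dv (A * B - B * A) v i := by
  rw [Dv_comp, Dv_comp, Dv_sub]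
  have h : (∑ a, ∑ c, if a = c then 0 else ∑ x, ∑ y, A (i a) x * (B (i c) y *
        v (Function.update (Function.update i a x) c y))) =
      ∑ a, ∑ c, if a = c then 0 else ∑ x, ∑ y, B (i a) x * (A (i c) y *
        v (Function.update (Function.update i a x) c y)) := by
    rw [Finset.sum_comm]
    refine Finset.sum_congr rfl fun c _ => Finset.sum_congr rfl fun a _ => ?_
    by_cases hac : a = c
    · rw [if_pos hac, if_pos hac.symm]
    · rw [if_neg hac, if_neg (Ne.symm hac), Finset.sum_comm]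
      refine Finset.sum_congr rfl fun y _ => Finset.sum_congr rfl fun x _ => ?_
      rw [Function.update_comm hac]
      ring
  rw [h]; ring

theorem Dv_adj (A : Matrix ι ι ℝ) (v w : (Fin k → ι) → ℝ) :
    ∑ i, Dv A v i * w i = ∑ i, v i * Dv Aᵀ w i := by
  have h1 : ∀ a : Fin k, ∑ i : Fin k → ι, ∑ x, A (i a) x * v (Function.update i a x) * w i =
      ∑ i : Fin k → ι, ∑ x, v i * (Aᵀ (i a) x * w (Function.update i a x)) := by
    intro a
    rw [← Fintype.sum_prod_type', ← Fintype.sum_prod_type']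
    refine Fintype.sum_equiv
      ⟨fun p : (Fin k → ι) × ι => (Function.update p.1 a p.2, p.1 a),
       fun p : (Fin k → ι) × ι => (Function.update p.1 a p.2, p.1 a), ?_, ?_⟩ _ _ ?_
    · rintro ⟨i, x⟩; simp
    · rintro ⟨i, x⟩; simp
    · rintro ⟨i, x⟩
      simp only [Equiv.coe_fn_mk, Function.update_self, Function.update_idem,
        Function.update_eq_self, Matrix.transpose_apply]
      ring
  calc ∑ i, Dv A v i * w i = ∑ a, ∑ i : Fin k → ι, ∑ x,
        A (i a) x * v (Function.update i a x) * w i := by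
        rw [Finset.sum_comm]
        refine Finset.sum_congr rfl fun i _ => ?_
        rw [Dv, Finset.sum_mul]
        exact Finset.sum_congr rfl fun a _ => by rw [Finset.sum_mul]
    _ = ∑ a, ∑ i : Fin k → ι, ∑ x, v i * (Aᵀ (i a) x * w (Function.update i a x)) :=
        Finset.sum_congr rfl fun a _ => h1 a
    _ = ∑ i, v i * Dv Aᵀ w i := by
        rw [Finset.sum_comm]
        refine Finset.sum_congr rfl fun i _ => ?_
        rw [Dv, Finset.mul_sum]
        exact Finset.sum_congr rfl fun a _ => by rw [Finset.mul_sum]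

theorem wt_update (wt : ι → ℤ) (i : Fin k → ι) (a : Fin k) (x : ι) :
    ∑ c, wt (Function.update i a x c) = ∑ c, wt (i c) - wt (i a) + wt x := by
  have h1 : ∑ c, wt (Function.update i a x c) = wt x + ∑ c ∈ Finset.univ.erase a, wt (i c) := by
    rw [← Finset.add_sum_erase _ _ (Finset.mem_univ a), Function.update_self]
    congr 1
    refine Finset.sum_congr rfl fun c hc => ?_
    rw [Function.update_of_ne (Finset.ne_of_mem_erase hc)]
  rw [h1, ← Finset.add_sum_erase Finset.univ (fun c => wt (i c)) (Finset.mem_univ a)]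
  ring

/-- derivative of the group action at the identity -/
theorem Dv_of_fix (N N2 : Matrix ι ι ℝ) (v : (Fin k → ι) → ℝ)
    (hfix : ∀ t : ℝ, tens k (1 + t • N + (t^2/2) • N2) *ᵥ v = v) (i : Fin k → ι) :
    Dv N v i = 0 := by
  obtain ⟨G, hG⟩ : ∃ G : ℝ → Matrix ι ι ℝ, ∀ t, G t = 1 + t • N + (t^2/2) • N2 :=
    ⟨_, fun _ => rfl⟩
  have hG0 : G 0 = 1 := by rw [hG]; simp
  have hd : ∀ p q : ι, HasDerivAt (fun t : ℝ => G t p q) (N p q) 0 := by
    intro p q
    have h1 : HasDerivAt (fun t : ℝ => (1 : Matrix ι ι ℝ) p q + t * N p q + (t^2/2) * N2 p q)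
        (0 + 1 * N p q + ((2:ℕ) * (0:ℝ)^(2-1) * 1 / 2) * N2 p q) 0 := by
      refine (((hasDerivAt_const (0:ℝ) ((1 : Matrix ι ι ℝ) p q)).add
        ((hasDerivAt_id (0:ℝ)).mul_const (N p q)))).add ?_
      exact (((hasDerivAt_id (0:ℝ)).pow 2).div_const 2).mul_const (N2 p q)
    have h2 : HasDerivAt (fun t : ℝ => G t p q)
        (0 + 1 * N p q + ((2:ℕ) * (0:ℝ)^(2-1) * 1 / 2) * N2 p q) 0 := by
      refine h1.congr_of_eventuallyEq (Filter.Eventually.of_forall fun t => ?_)
      show G t p q = _
      rw [hG, Matrix.add_apply, Matrix.add_apply, Matrix.smul_apply, Matrix.smul_apply,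
        smul_eq_mul, smul_eq_mul]
    convert h2 using 1
    simp
  have hprod : ∀ j : Fin k → ι, HasDerivAt
      (fun t : ℝ => (∏ a, G t (i a) (j a)) * v j)
      ((∑ a, (∏ c ∈ Finset.univ.erase a, (1 : Matrix ι ι ℝ) (i c) (j c)) * N (i a) (j a)) * v j)
      0 := by
    intro j
    have h1 := HasDerivAt.fun_finsetProd (u := (Finset.univ : Finset (Fin k)))
      (f := fun (a : Fin k) (t : ℝ) => G t (i a) (j a))
      (f' := fun a => N (i a) (j a)) (x := (0:ℝ)) (fun a _ => hd (i a) (j a))
    have h2 := h1.mul_const (v j)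
    simp only [smul_eq_mul, hG0] at h2
    exact h2
  have hsum : HasDerivAt (fun t : ℝ => (tens k (G t) *ᵥ v) i)
      (∑ j : Fin k → ι, (∑ a, (∏ c ∈ Finset.univ.erase a, (1 : Matrix ι ι ℝ) (i c) (j c)) *
        N (i a) (j a)) * v j) 0 := by
    have h1 := HasDerivAt.fun_sum (u := Finset.univ) (fun j _ => hprod j)
    exact h1
  have hconst : HasDerivAt (fun t : ℝ => (tens k (G t) *ᵥ v) i) 0 0 := by
    have : (fun t : ℝ => (tens k (G t) *ᵥ v) i) = fun _ => v i := by
      funext t; rw [hG, hfix]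
    rw [this]; exact hasDerivAt_const _ _
  have hz := hsum.unique hconst
  rw [← hz, Dv]
  have h3 : ∀ j : Fin k → ι, (∑ a, (∏ c ∈ Finset.univ.erase a, (1 : Matrix ι ι ℝ) (i c) (j c)) *
        N (i a) (j a)) * v j = ∑ a, (∏ c ∈ Finset.univ.erase a,
          (1 : Matrix ι ι ℝ) (i c) (j c)) * N (i a) (j a) * v j := fun j => Finset.sum_mul _ _ _
  simp only [h3]
  conv_rhs => rw [Finset.sum_comm]
  refine Finset.sum_congr rfl fun a _ => ?_
  refine Finset.sum_of_injOn (fun x => Function.update i a x) ?_ ?_ ?_ ?_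
  · intro x _ y _ hxy
    exact Function.update_injective i a hxy
  · intro x _; exact Finset.mem_univ _
  · intro j _ hj
    have : ∃ c ∈ Finset.univ.erase a, i c ≠ j c := by
      by_contra hcon
      push Not at hcon
      apply hj
      refine ⟨j a, by simp, ?_⟩
      funext c
      show Function.update i a (j a) c = j c
      by_cases hc : c = a
      · subst hc; simp
      · rw [Function.update_of_ne hc]
        exact hcon c (Finset.mem_erase.2 ⟨hc, Finset.mem_univ _⟩)
    obtain ⟨c, hc, hne⟩ := this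
    have h0 : (∏ c ∈ Finset.univ.erase a, (1 : Matrix ι ι ℝ) (i c) (j c)) = 0 :=
      Finset.prod_eq_zero hc (Matrix.one_apply_ne hne)
    rw [h0, zero_mul, zero_mul]
  · intro x _
    have : (∏ c ∈ Finset.univ.erase a, (1 : Matrix ι ι ℝ) (i c) (Function.update i a x c)) = 1 := by
      refine Finset.prod_eq_one fun c hc => ?_
      rw [Function.update_of_ne (Finset.ne_of_mem_erase hc), Matrix.one_apply_eq]
    simp only [this, one_mul, Function.update_self]

theorem wt_true (N N2 : Matrix ι ι ℝ) (wt : ι → ℤ)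
    (hc : N * Nᵀ - Nᵀ * N = Matrix.diagonal (fun i => (wt i : ℝ)))
    (hr : ∀ i j, N i j ≠ 0 → wt i = wt j + 1) (v : (Fin k → ι) → ℝ)
    (hfix : ∀ t : ℝ, tens k (1 + t • N + (t^2/2) • N2) *ᵥ v = v) (i0 : Fin k → ι)
    (hi0 : (∑ a, wt (i0 a)) < 0) : v i0 = 0 := by
  set m : ℤ := ∑ a, wt (i0 a) with hm
  set vm : (Fin k → ι) → ℝ := fun i => if (∑ a, wt (i a)) = m then v i else 0 with hvm
  have h1 : ∀ i, Dv N vm i = 0 := by
    intro i
    by_cases hw : (∑ a, wt (i a)) = m + 1
    · rw [← Dv_of_fix N N2 v hfix i]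
      refine Finset.sum_congr rfl fun a _ => Finset.sum_congr rfl fun x _ => ?_
      by_cases hN : N (i a) x = 0
      · rw [hN, zero_mul, zero_mul]
      · have h2 := hr _ _ hN
        have h3 : ∑ c, wt (Function.update i a x c) = m := by rw [wt_update, hw, h2]; ring
        rw [hvm]
        simp only [h3, if_true]
    · refine Finset.sum_eq_zero fun a _ => Finset.sum_eq_zero fun x _ => ?_
      by_cases hN : N (i a) x = 0
      · rw [hN, zero_mul]
      · have h2 := hr _ _ hN
        have h3 : ∑ c, wt (Function.update i a x c) ≠ m := by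
          rw [wt_update, h2]; intro h; apply hw; linarith
        rw [hvm]
        simp only [h3, if_false, mul_zero]
  have h2 : ∀ i, Dv N (Dv Nᵀ vm) i = (m : ℝ) * vm i := by
    intro i
    have h3 := Dv_comm N Nᵀ vm i
    have h4 : Dv Nᵀ (Dv N vm) i = 0 := by
      have : Dv N vm = fun _ => 0 := funext h1
      rw [this, Dv]; simp
    rw [h4, sub_zero, hc, Dv_diag] at h3
    rw [h3]
    by_cases hw : (∑ a, wt (i a)) = m
    · rw [← hw]; push_cast; rfl
    · have : vm i = 0 := by rw [hvm]; simp only [hw, if_false]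
      rw [this, mul_zero, mul_zero]
  have h3 := Dv_adj N (Dv Nᵀ vm) vm
  have h4 : (∑ i, Dv N (Dv Nᵀ vm) i * vm i) = (m : ℝ) * ∑ i, vm i ^ 2 := by
    rw [Finset.mul_sum]
    exact Finset.sum_congr rfl fun i _ => by rw [h2]; ring
  rw [h4] at h3
  have h5 : 0 ≤ ∑ i, Dv Nᵀ vm i * Dv Nᵀ vm i :=
    Finset.sum_nonneg fun i _ => mul_self_nonneg _
  have h6 : 0 ≤ ∑ i, vm i ^ 2 := Finset.sum_nonneg fun i _ => sq_nonneg _
  have hm0 : (m : ℝ) < 0 := by exact_mod_cast hi0
  have h7 : ∑ i, vm i ^ 2 = 0 := by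
    by_contra hne
    have : 0 < ∑ i, vm i ^ 2 := lt_of_le_of_ne h6 (Ne.symm hne)
    have := mul_neg_of_neg_of_pos hm0 this
    linarith
  have h8 := (Finset.sum_eq_zero_iff_of_nonneg (fun i _ => sq_nonneg (vm i))).1 h7 i0
    (Finset.mem_univ _)
  have h9 : vm i0 = v i0 := by rw [hvm]; simp [hm]
  rw [← h9]
  exact pow_eq_zero_iff (two_ne_zero) |>.1 h8

end

theorem wt_gen : wt_genStatement := by
  intro ι _ _ N wt hN3 hc hr b k v hfix i hi
  cases b
  · rw [if_neg (by simp)] at hi
    have hinv : ∀ t : ℝ, ((1 + t • N + (t^2/2) • (N * N))⁻¹)ᵀ =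
        1 + t • (-Nᵀ) + (t^2/2) • (-Nᵀ * -Nᵀ) := by
      intro t
      have h1 : (1 + t • N + (t^2/2) • (N * N))⁻¹ = 1 + (-t) • N + (t^2/2) • (N * N) := by
        refine Matrix.inv_eq_left_inv ?_
        have e1 : N * (N * N) = 0 := by rw [← Matrix.mul_assoc, hN3]
        have e2 : (N * N) * (N * N) = 0 := by rw [Matrix.mul_assoc, e1, Matrix.mul_zero]
        simp only [Matrix.add_mul, Matrix.mul_add, Matrix.one_mul, Matrix.mul_one,
          Matrix.smul_mul, Matrix.mul_smul, hN3, e1, e2, smul_zero, add_zero]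
        module
      rw [h1, Matrix.transpose_add, Matrix.transpose_add, Matrix.transpose_one,
        Matrix.transpose_smul, Matrix.transpose_smul, Matrix.transpose_mul, neg_mul_neg]
      simp
    have hfix' : ∀ t : ℝ, tens k (1 + t • (-Nᵀ) + (t^2/2) • (-Nᵀ * -Nᵀ)) *ᵥ v = v := by
      intro t
      have := hfix t
      rw [ract, if_neg (by simp), hinv] at this
      exact this
    refine wt_true (-Nᵀ) (-Nᵀ * -Nᵀ) (fun j => - wt j) ?_ ?_ v hfix' i ?_
    · rw [Matrix.transpose_neg, Matrix.transpose_transpose, neg_mul_neg, neg_mul_neg]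
      have : Nᵀ * N - N * Nᵀ = -(Matrix.diagonal (fun i => (wt i : ℝ))) := by rw [← hc]; abel
      rw [this]
      ext p q
      by_cases hpq : p = q
      · subst hpq; simp
      · simp [hpq]
    · intro p q h
      have h1 : N q p ≠ 0 := by
        intro h0; apply h; simp [h0]
      have := hr q p h1
      linarith
    · rw [Finset.sum_neg_distrib]; exact hi
  · rw [if_pos rfl] at hi
    refine wt_true N (N * N) wt hc hr v ?_ i hi
    intro t
    have := hfix t
    rw [ract, if_pos rfl] at this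
    exact this

end QL
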