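import Pool.Agent.Helper27_QL.Stmt

/-!
# Sub-modules of app3 (degenerate case), PLAN.md sections 7, 10, 11
Coordinates on `Fin d ⊕ Fin 2`: `y = inl`, `s = inr 0`, `z = inr 1`.
-/

set_option autoImplicit false
set_option linter.unusedVariables false
open Matrix Polynomial MeasureTheory Set Filter Topology
namespace QL

abbrev I3 (d : ℕ) := Fin d ⊕ Fin 2
abbrev M3 (d : ℕ) := Matrix (I3 d) (I3 d) ℝ

def GoodB (d : ℕ) (B : Matrix (Fin d) (Fin d) ℝ) : Prop :=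
  B = 1 ∨ (d = 2 ∧ ∀ i j, B i j = if i = j then 0 else 1)

/-- `u_w : (s,y,z) ↦ (s, y + s w, z - 2<w,y> - <w,w>s)` -/
noncomputable def uB {d : ℕ} (B : Matrix (Fin d) (Fin d) ℝ) (w : Fin d → ℝ) : M3 d :=
  Matrix.fromBlocks 1 (fun i j => if j = 0 then w i else 0)
    (fun i j => if i = 0 then 0 else -2 * (B *ᵥ w) j) !![1, 0; -(w ⬝ᵥ B *ᵥ w), 1]
/-- `a_c : (s,y,z) ↦ (c s, y, c⁻¹ z)` -/
noncomputable def aB (d : ℕ) (c : ℝ) : M3 d := Matrix.fromBlocks 1 0 0 !![c, 0; 0, c⁻¹]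
/-- `v_b : (s,y,z) ↦ (s, y, z + b s)` -/
def vB (d : ℕ) (b : ℝ) : M3 d := Matrix.fromBlocks 1 0 0 !![1, 0; b, 1]
/-- `o ∈ O(B)` acting on `y` -/
def oB {d : ℕ} (o : Matrix (Fin d) (Fin d) ℝ) : M3 d := Matrix.fromBlocks o 0 0 1
/-- `L²` -/
def LL (d : ℕ) : M3 d := vecMulVec (LB d) (LB d)
noncomputable def pB {d : ℕ} (B : Matrix (Fin d) (Fin d) ℝ) : W (I3 d) := (QB B, LB d)
/-- the pair `(Q + bL², cL)` -/
noncomputable def qB {d : ℕ} (B : Matrix (Fin d) (Fin d) ℝ) (b c : ℝ) : W (I3 d) :=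
  (QB B + b • LL d, c • LB d)
noncomputable def FB {d : ℕ} (B : Matrix (Fin d) (Fin d) ℝ) : Submodule ℝ (M3 d) :=
  Submodule.span ℝ {QB B, LL d}
noncomputable def TLB {d : ℕ} (B : Matrix (Fin d) (Fin d) ℝ) : List (Tube (I3 d)) :=
  [tube2 (FB B), tube1 (LB d)]

def UB_existsStatement : Prop := ∀ (d : ℕ) (B : Matrix (Fin d) (Fin d) ℝ) (hs : Bᵀ = B),
  ∃ U : UAct (I3 d) d, ∀ w, U.u w = uB B w

def TLB_factsStatement : Prop := ∀ (d : ℕ) (hd : 2 ≤ d) (B : Matrix (Fin d) (Fin d) ℝ)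
  (hB : GoodB d B),
  UniqL (TLB B) ∧
  (∀ w, ∀ T ∈ TLB B, ∀ v, T.Pi v = 0 → ract false T.k (uB B w) v = v) ∧
  ∀ g : M3 d, g ∈ ns (TLB B) ↔ (g.det = 1 ∧
    (∀ w : I3 d → ℤ, w ≠ 0 → ¬ ∃ c : ℝ, iv w = c • (LB d ᵥ* g)) ∧
    (∀ R : Matrix (I3 d) (I3 d) ℤ, R ≠ 0 → ¬ ∃ a b : ℝ,
      im R = a • (gᵀ * QB B * g) + b • vecMulVec (LB d ᵥ* g) (LB d ᵥ* g)))

/-- matrix identities -/
def algBStatement : Prop := ∀ (d : ℕ) (B : Matrix (Fin d) (Fin d) ℝ) (hs : Bᵀ = B),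
  (∀ w w', uB B (w + w') = uB B w * uB B w') ∧ (∀ w, (uB B w).det = 1) ∧ uB B 0 = 1 ∧
  (∀ w, act (pB B) (uB B w) = pB B) ∧
  (∀ b c, c ≠ 0 → act (pB B) (aB d c * vB d b) = qB B b c) ∧
  (∀ b c w, act (qB B b c) (uB B w) = qB B b c) ∧
  (∀ c, c ≠ 0 → (aB d c).det = 1) ∧ (∀ b, (vB d b).det = 1) ∧
  (∀ c w, c ≠ 0 → aB d c * uB B w = uB B (c⁻¹ • w) * aB d c) ∧
  (∀ b w, vB d b * uB B w = uB B w * vB d b) ∧
  (∀ b b', vB d b * vB d b' = vB d (b + b')) ∧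
  (∀ c b, c ≠ 0 → aB d c * vB d b = vB d (b / c^2) * aB d c) ∧
  (∀ o, oᵀ * B * o = B → act (pB B) (oB o) = pB B) ∧
  (∀ o w, oᵀ * B * o = B → B.det ≠ 0 → oB o * uB B w = uB B (o *ᵥ w) * oB o) ∧
  (∀ o b c, oᵀ * B * o = B → act (qB B b c) (oB o) = qB B b c) ∧
  (∀ b c b' c', c ≠ 0 → act (qB B b' c') ((aB d c * vB d b)⁻¹) = qB B ((b' - b) / c^2) (c' / c))

/-- symmetric fixed pairs and the discriminant -/
def fixedBStatement : Prop := ∀ (d : ℕ) (hd : 2 ≤ d) (B : Matrix (Fin d) (Fin d) ℝ)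
  (hB : GoodB d B),
  (∀ q : W (I3 d), q.1ᵀ = q.1 → (∀ w, act q (uB B w) = q) →
    ∃ a b c : ℝ, q = (a • QB B + b • LL d, c • LB d)) ∧
  (∀ a b : ℝ, (a • QB B + b • LL d).det = a^(d+2) * (QB B).det) ∧ (QB B).det ≠ 0 ∧
  (QB B)ᵀ = QB B

/-- stabiliser of the pair -/
def stabBStatement : Prop := ∀ (d : ℕ) (hd : 2 ≤ d) (B : Matrix (Fin d) (Fin d) ℝ)
  (hB : GoodB d B) (h : M3 d) (hh : act (pB B) h = pB B),
  ∃ (o : Matrix (Fin d) (Fin d) ℝ) (w : Fin d → ℝ), oᵀ * B * o = B ∧ h = uB B w * oB o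

/-- structure of `g → 1` with `p ∘ g` fixed -/
def structBStatement : Prop := ∀ (d : ℕ) (hd : 2 ≤ d) (B : Matrix (Fin d) (Fin d) ℝ)
  (hB : GoodB d B) (g : ℕ → M3 d) (hg : Tendsto g atTop (𝓝 1)) (hdet : ∀ i, (g i).det = 1)
  (hf : ∀ i w, act (act (pB B) (g i)) (uB B w) = act (pB B) (g i)),
  ∃ (i0 : ℕ) (o : ℕ → Matrix (Fin d) (Fin d) ℝ) (w : ℕ → Fin d → ℝ) (b c : ℕ → ℝ),
    Tendsto o atTop (𝓝 1) ∧ Tendsto w atTop (𝓝 0) ∧ Tendsto b atTop (𝓝 0) ∧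
    Tendsto c atTop (𝓝 1) ∧ ∀ i ≥ i0, 0 < c i ∧ (o i)ᵀ * B * o i = B ∧
      g i = uB B (w i) * oB (o i) * aB d (c i) * vB d (b i)

/-- (β): returns cannot all lie in the normaliser.  Two traces give c = 1, o = 1. -/
def betaBStatement : Prop := ∀ (d : ℕ) (hd : 2 ≤ d) (B : Matrix (Fin d) (Fin d) ℝ)
  (hB : GoodB d B) (x : M3 d) (hx : x.det = 1)
  (hT : ∀ w : I3 d → ℤ, w ≠ 0 → ¬ ∃ c : ℝ, iv w = c • (LB d ᵥ* x))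
  (v : ℕ → Fin d → ℝ) (T : ℕ → ℝ) (hTt : Tendsto T atTop atTop) (ω : Fin d → ℝ)
  (hω : ω ⬝ᵥ B *ᵥ ω ≠ 0) (hv : Tendsto (fun i => (T i)⁻¹ • v i) atTop (𝓝 ω))
  (γ : ℕ → M3 d) (hγ : ∀ i, γ i ∈ Gam (I3 d)) (g : ℕ → M3 d) (hg : Tendsto g atTop (𝓝 1))
  (hdet : ∀ i, (g i).det = 1) (heq : ∀ i, uB B (v i) * x * γ i = g i * x)
  (hf : ∀ i w, act (act (pB B) (g i)) (uB B w) = act (pB B) (g i)), False

/-- the polynomial curve -/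
def CurveB {d : ℕ} (B : Matrix (Fin d) (Fin d) ℝ) (S : Set (ℝ × ℝ)) (Y : Set (M3 d))
    (b c : ℝ[X]) : Prop :=
  b.eval 0 = 0 ∧ c.eval 0 = 1 ∧ (b ≠ 0 ∨ c ≠ 1) ∧
    ∀ t : ℝ, ∀ x' ∈ Y, (x', qB B (b.eval t) (c.eval t)) ∈ DD S

/-- (α) from `drift`; the closure property is used by `coneB` -/
def alphaBStatement : Prop := ∀ (d : ℕ) (hd : 2 ≤ d) (B : Matrix (Fin d) (Fin d) ℝ)
  (hB : GoodB d B) (S : Set (ℝ × ℝ)) (hS : IsClosed S) (U : UAct (I3 d) d)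
  (hU : ∀ w, U.u w = uB B w) (Y : Set (M3 d)) (x : M3 d) (hret : Ret U Y x)
  (g : ℕ → M3 d) (hg : Tendsto g atTop (𝓝 1)) (hdet : ∀ i, (g i).det = 1)
  (hD : ∀ i, (x, act (pB B) (g i)) ∈ DD S)
  (hnf : ∀ i, ∃ w, act (act (pB B) (g i)) (uB B w) ≠ act (pB B) (g i)),
  ∃ b c : ℝ[X], CurveB B S Y b c ∧
    ∀ t, qB B (b.eval t) (c.eval t) ∈ closure {q | ∃ i w, q = act (pB B) (g i * uB B w)}

/-- the Pluecker vector of `x A` is fixed by `U` -/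
def PlFix {d : ℕ} (B : Matrix (Fin d) (Fin d) ℝ) {k : ℕ} (M : Matrix (I3 d) (Fin k) ℝ) : Prop :=
  (∃ i, pl M i ≠ 0) ∧ ∀ w, pl (uB B w * M) = pl M

/-- structure of `U`-invariant subspaces: contained in `ker L`, contain `e_z` -/
def planeBStatement : Prop := ∀ (d : ℕ) (hd : 2 ≤ d) (B : Matrix (Fin d) (Fin d) ℝ)
  (hB : GoodB d B) (k : ℕ) (hk : 0 < k) (hk' : k < d + 2) (M : Matrix (I3 d) (Fin k) ℝ)
  (hM : PlFix B M),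
  LB d ᵥ* M = 0 ∧ (∃ a : Fin k → ℝ, M *ᵥ a = Pi.single (Sum.inr 1) 1) ∧
  (∀ b, vB d b * M = M)

/-- a basis of the column space of `M` starting with `e_z`, nondegenerate modulo `e_z` -/
def NdegB {d : ℕ} (B : Matrix (Fin d) (Fin d) ℝ) {k : ℕ} (M0 : Matrix (I3 d) (Fin k) ℝ)
    (M : Matrix (I3 d) (Fin (k+1)) ℝ) : Prop :=
  (∃ κ : Matrix (Fin (k+1)) (Fin (k+1)) ℝ, κ.det ≠ 0 ∧
    M * κ = fun i j => Fin.cases ((Pi.single (Sum.inr 1) 1 : I3 d → ℝ) i) (fun j' => M0 i j') j) ∧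
  (M0ᵀ * QB B * M0).det ≠ 0

/-- if some subspace `M`, fixed by all `g i`, is `U`-invariant and nondegenerate modulo `e_z` then
`c = ±1` -/
def coneBStatement : Prop := ∀ (d : ℕ) (hd : 2 ≤ d) (B : Matrix (Fin d) (Fin d) ℝ)
  (hB : GoodB d B) (k : ℕ) (hk : k + 1 < d + 2) (M0 : Matrix (I3 d) (Fin k) ℝ)
  (M : Matrix (I3 d) (Fin (k+1)) ℝ) (hM : PlFix B M) (hN : NdegB B M0 M)
  (g : ℕ → M3 d) (hdet : ∀ i, (g i).det = 1) (i0 : ℕ) (hfix : ∀ i ≥ i0, pl (g i * M) = pl M)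
  (b c : ℝ) (hcl : qB B b c ∈ closure {q | ∃ i ≥ i0, ∃ w, q = act (pB B) (g i * uB B w)}),
  c^2 = 1

/-- integer `U`-fixed Pluecker vectors are fixed by returns close to 1 -/
def retfixBStatement : Prop := ∀ (d : ℕ) (B : Matrix (Fin d) (Fin d) ℝ) (x : M3 d)
  (hx : x.det = 1) (k : ℕ) (A : Matrix (I3 d) (Fin k) ℤ) (hA : PlFix B (x * im A))
  (v : ℕ → Fin d → ℝ) (γ : ℕ → M3 d) (hγ : ∀ i, γ i ∈ Gam (I3 d)) (g : ℕ → M3 d)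
  (hg : Tendsto g atTop (𝓝 1)) (heq : ∀ i, uB B (v i) * x * γ i = g i * x),
  ∀ᶠ i in atTop, pl (g i * (x * im A)) = pl (x * im A)

/-- `U`-fixed covector 2-tensors (not necessarily symmetric) and 1-tensors -/
def fix2BStatement : Prop := ∀ (d : ℕ) (hd : 2 ≤ d) (B : Matrix (Fin d) (Fin d) ℝ)
  (hB : GoodB d B),
  (∀ M : M3 d, (∀ w, (uB B w)ᵀ * M * uB B w = M) → ∃ (a b : ℝ) (η : Fin d → ℝ),
    M = a • QB B + b • LL d + (vecMulVec (LB d) (Sum.elim η 0) - vecMulVec (Sum.elim η 0) (LB d))) ∧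
  (∀ l : I3 d → ℝ, (∀ w, l ᵥ* uB B w = l) → ∃ c : ℝ, l = c • LB d)

/-- for nonsingular `x` an integer `U`-fixed covector 2-tensor is skew, equal to `L ∧ η`, and gives
an integer `U`-invariant subspace of dimension `d` -/
def skewBStatement : Prop := ∀ (d : ℕ) (hd : 2 ≤ d) (B : Matrix (Fin d) (Fin d) ℝ)
  (hB : GoodB d B) (x : M3 d) (hx : x ∈ ns (TLB B)) (R : Matrix (I3 d) (I3 d) ℤ)
  (hfix : ∀ w, (uB B w)ᵀ * ((x⁻¹)ᵀ * im R * x⁻¹) * uB B w = (x⁻¹)ᵀ * im R * x⁻¹),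
  ∃ η : Fin d → ℝ,
    (x⁻¹)ᵀ * im R * x⁻¹ =
      vecMulVec (LB d) (Sum.elim η 0) - vecMulVec (Sum.elim η 0) (LB d) ∧
    (R ≠ 0 → ∃ A : Matrix (I3 d) (Fin d) ℤ, PlFix B (x * im A) ∧
      LB d ᵥ* (x * im A) = 0 ∧ Sum.elim η 0 ᵥ* (x * im A) = 0)

/-- trichotomy -/
def trichBStatement : Prop := ∀ (d : ℕ) (hd : 2 ≤ d) (B : Matrix (Fin d) (Fin d) ℝ)
  (hB : GoodB d B) (x : M3 d) (hx : x.det = 1),
  (∀ k : ℕ, 0 < k → k < d + 2 → ∀ A : Matrix (I3 d) (Fin k) ℤ, ¬ PlFix B (x * im A)) ∨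
  (∃ k : ℕ, k + 1 < d + 2 ∧ ∃ A : Matrix (I3 d) (Fin (k+1)) ℤ, PlFix B (x * im A) ∧
    ∃ M0 : Matrix (I3 d) (Fin k) ℝ, NdegB B M0 (x * im A)) ∨
  (d = 2 ∧ (∀ i j, B i j = if i = j then 0 else 1) ∧ ∃ i0 : Fin d,
    ∀ k : ℕ, 0 < k → k < d + 2 → ∀ A : Matrix (I3 d) (Fin k) ℤ, PlFix B (x * im A) → k = 2 ∧
      ∀ j, j ≠ Sum.inl i0 → j ≠ Sum.inr 1 → ∀ c, (x * im A) j c = 0)

/-- compensation: `h_t = o(t) a_{c(t)} v_{b(t)}` fixes every `U`-fixed Pluecker vector of an integer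
subspace and every `U`-fixed integer tensor of the tubes -/
def Comp {d : ℕ} (B : Matrix (Fin d) (Fin d) ℝ) (x : M3 d) (b c : ℝ[X])
    (o : ℝ → Matrix (Fin d) (Fin d) ℝ) : Prop :=
  ∀ t : ℝ, c.eval t ≠ 0 → (o t)ᵀ * B * o t = B ∧ (oB (o t)).det = 1 ∧
    (∀ k : ℕ, 0 < k → k < d + 2 → ∀ A : Matrix (I3 d) (Fin k) ℤ, PlFix B (x * im A) →
      pl (oB (o t) * aB d (c.eval t) * vB d (b.eval t) * (x * im A)) = pl (x * im A)) ∧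
    (∀ T ∈ TLB B, ∀ w : (Fin T.k → I3 d) → ℤ,
      (∀ v, ract false T.k (uB B v) (ract false T.k x (iv w)) = ract false T.k x (iv w)) →
      ract false T.k (oB (o t) * aB d (c.eval t) * vB d (b.eval t)) (ract false T.k x (iv w)) =
        ract false T.k x (iv w))

/-- from `trichB`, `coneB`, `retfixB`, `planeB`, `skewB`; `i0` is chosen before `b`, `c` -/
def compBStatement : Prop := ∀ (d : ℕ) (hd : 2 ≤ d) (B : Matrix (Fin d) (Fin d) ℝ)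
  (hB : GoodB d B) (x : M3 d) (hx : x ∈ ns (TLB B))
  (v : ℕ → Fin d → ℝ) (γ : ℕ → M3 d) (hγ : ∀ i, γ i ∈ Gam (I3 d)) (g : ℕ → M3 d)
  (hg : Tendsto g atTop (𝓝 1)) (hdet : ∀ i, (g i).det = 1)
  (heq : ∀ i, uB B (v i) * x * γ i = g i * x),
  ∃ i0 : ℕ, ∀ b c : ℝ[X], c.eval 0 = 1 →
    (∀ t, qB B (b.eval t) (c.eval t) ∈
      closure {q | ∃ i ≥ i0, ∃ w, q = act (pB B) (g i * uB B w)}) →
    ∃ o, Comp B x b c o

/-- assembly: `minset` + `betaB` + `alphaB` + `compB` -/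
def curveBStatement : Prop := ∀ (d : ℕ) (hd : 2 ≤ d) (B : Matrix (Fin d) (Fin d) ℝ)
  (hB : GoodB d B) (S : Set (ℝ × ℝ)) (hS : IsClosed S) (x0 : M3 d) (hx0 : x0 ∈ ns (TLB B))
  (hD : (x0, pB B) ∈ DD S),
  ∃ (U : UAct (I3 d) d) (Y : Set (M3 d)) (x : M3 d) (b c : ℝ[X])
    (o : ℝ → Matrix (Fin d) (Fin d) ℝ),
    (∀ w, U.u w = uB B w) ∧ Inv U Y ∧ x ∈ Y ∩ ns (TLB B) ∧ CurveB B S Y b c ∧ Comp B x b c o

/-- asymptotics of the curve at infinity -/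
def asymBStatement : Prop := ∀ (b c : ℝ[X]) (hc0 : c ≠ 0) (hne : b ≠ 0 ∨ c ≠ 1)
  (hb0 : b.eval 0 = 0) (hc1 : c.eval 0 = 1),
  (∀ r : ℝ, ∃ s : ℝ → ℝ,
      Tendsto (fun t => (b.eval (t + s t) - b.eval t) / (c.eval t)^2) atTop (𝓝 r) ∧
      Tendsto (fun t => c.eval (t + s t) / c.eval t) atTop (𝓝 1)) ∨
  (∃ β : ℝ, ∀ l : ℝ, 0 < l → ∃ s : ℝ → ℝ,
      Tendsto (fun t => (b.eval (t + s t) - b.eval t) / (c.eval t)^2) atTop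
        (𝓝 (β * (l^2 - 1))) ∧
      Tendsto (fun t => c.eval (t + s t) / c.eval t) atTop (𝓝 l))

/-- limit step: `NL_seq2` (helper97), `nd_path`, `growth`, `asymB` -/
def limitBStatement : Prop := ∀ (d : ℕ) (hd : 2 ≤ d) (B : Matrix (Fin d) (Fin d) ℝ)
  (hB : GoodB d B) (S : Set (ℝ × ℝ)) (hS : IsClosed S) (U : UAct (I3 d) d)
  (hU : ∀ w, U.u w = uB B w) (Y : Set (M3 d)) (hY : Inv U Y) (x : M3 d)
  (hx : x ∈ Y ∩ ns (TLB B)) (b c : ℝ[X]) (hC : CurveB B S Y b c)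
  (o : ℝ → Matrix (Fin d) (Fin d) ℝ) (ho : Comp B x b c o),
  ∃ z ∈ ns (TLB B), (∀ r : ℝ, (z, qB B r 1) ∈ DD S) ∨
    ∃ β : ℝ, ∀ l : ℝ, 0 < l → (z, qB B (β * (l^2 - 1)) l) ∈ DD S

/-- conclusion: `dense_lin`, `oppn` -/
def finalBStatement : Prop := ∀ (d : ℕ) (hd : 2 ≤ d) (B : Matrix (Fin d) (Fin d) ℝ)
  (hB : GoodB d B) (S : Set (ℝ × ℝ)) (hS : IsClosed S) (z : M3 d) (hz : z ∈ ns (TLB B))
  (h : (∀ r : ℝ, (z, qB B r 1) ∈ DD S) ∨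
    ∃ β : ℝ, ∀ l : ℝ, 0 < l → (z, qB B (β * (l^2 - 1)) l) ∈ DD S), S = univ

end QL
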