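import Pool.Agent.Helper27_QL.Stmt

/-!
# Sub-modules of app1 (ternary Oppenheim) and app2 (SO(2,1) in SL_4)
See PLAN.md sections 5, 6, 8.
-/

set_option autoImplicit false
set_option linter.unusedVariables false
open Matrix Polynomial MeasureTheory Set Filter Topology
namespace QL

/-! ## common: weights of `U`-fixed tensors (PLAN section 8) -/

/-- `U`-fixed tensors are supported on nonnegative weights -/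
def wt_genStatement : Prop :=
  ∀ {ι : Type} [Fintype ι] [DecidableEq ι] (N : Matrix ι ι ℝ) (wt : ι → ℤ)
    (hN3 : N * N * N = 0)
    (hc : N * Nᵀ - Nᵀ * N = Matrix.diagonal (fun i => (wt i : ℝ)))
    (hr : ∀ i j, N i j ≠ 0 → wt i = wt j + 1) (b : Bool) (k : ℕ) (v : (Fin k → ι) → ℝ)
    (hfix : ∀ t : ℝ, ract b k (1 + t • N + (t^2/2) • (N * N)) v = v),
    ∀ i : Fin k → ι, (if b then (∑ a, wt (i a)) else -(∑ a, wt (i a))) < 0 → v i = 0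

/-- action of a diagonal matrix `diag(l^wt)` on tensors -/
def ract_diagStatement : Prop :=
  ∀ {ι : Type} [Fintype ι] [DecidableEq ι] (wt : ι → ℤ) (l : ℝ) (hl : 0 < l) (b : Bool) (k : ℕ)
    (v : (Fin k → ι) → ℝ) (i : Fin k → ι),
    ract b k (Matrix.diagonal (fun j => l ^ (wt j))) v i =
      l ^ (if b then (∑ a, wt (i a)) else -(∑ a, wt (i a))) * v i

/-! ## App1 -/

/-- the covector `x1` -/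
def c3 : Fin 3 → ℝ := ![1,0,0]
noncomputable def F3 : Submodule ℝ (Matrix (Fin 3) (Fin 3) ℝ) := Submodule.span ℝ {B3}
noncomputable def TL3 : List (Tube (Fin 3)) := [tube2 F3, tube1 c3]
def form3 (θ α : ℝ) : Matrix (Fin 3) (Fin 3) ℝ := !![α,0,θ; 0,-θ,0; θ,0,0]
def v3 (α : ℝ) : Matrix (Fin 3) (Fin 3) ℝ := !![1,0,0; 0,1,0; α,0,1]
/-- the pair `(Q0, 0)` -/
def p3 : W (Fin 3) := (B3, 0)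

def U3_existsStatement : Prop := ∃ U : UAct (Fin 3) 1, ∀ w, U.u w = u3 (w 0)
def TL3_factsStatement : Prop :=
  UniqL TL3 ∧
  (∀ t : ℝ, ∀ T ∈ TL3, ∀ v, T.Pi v = 0 → ract false T.k (u3 t) v = v) ∧
  ∀ g : Matrix (Fin 3) (Fin 3) ℝ, g ∈ ns TL3 ↔ (g.det = 1 ∧
    (∀ w : Fin 3 → ℤ, w ≠ 0 → ¬ ∃ c : ℝ, iv w = c • (c3 ᵥ* g)) ∧
    (∀ R : Matrix (Fin 3) (Fin 3) ℤ, R ≠ 0 → ¬ ∃ c : ℝ, im R = c • (gᵀ * B3 * g)))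
/-- choice of a generic conjugate; also `(u3 r)ᵀ` preserves `B3` -/
def conj3Statement : Prop :=
  (∀ r, u3 r * B3 * (u3 r)ᵀ = B3) ∧
  ∀ g : Matrix (Fin 3) (Fin 3) ℝ, g.det = 1 →
    (∀ R : Matrix (Fin 3) (Fin 3) ℤ, R ≠ 0 → ¬ ∃ c : ℝ, im R = c • (gᵀ * B3 * g)) →
    ∃ r : ℝ, (u3 r)ᵀ * g ∈ ns TL3
/-- fixed symmetric forms and algebra of `v3`, `a3`, `u3` -/
def fixed3Statement : Prop :=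
  (∀ M : Matrix (Fin 3) (Fin 3) ℝ, Mᵀ = M → (∀ t, (u3 t)ᵀ * M * u3 t = M) →
    ∃ θ α, M = form3 θ α) ∧
  (∀ θ α, (form3 θ α).det = θ^3) ∧ (∀ α, (v3 α)ᵀ * B3 * v3 α = form3 1 (2*α)) ∧
  (∀ θ α t, (u3 t)ᵀ * form3 θ α * u3 t = form3 θ α) ∧
  (∀ t, (u3 t)ᵀ * B3 * u3 t = B3) ∧ (∀ l, l ≠ 0 → (a3 l)ᵀ * B3 * a3 l = B3) ∧
  (∀ α t, v3 α * u3 t = u3 t * v3 α) ∧ (∀ α β, v3 α * v3 β = v3 (α+β)) ∧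
  (∀ l α, l ≠ 0 → a3 l * v3 α = v3 (l^2 * α) * a3 l) ∧
  (∀ s t, u3 s * u3 t = u3 (s+t)) ∧ (∀ t, (u3 t).det = 1) ∧ (∀ α, (v3 α).det = 1) ∧
  (∀ l, l ≠ 0 → (a3 l).det = 1)

/-- curve: all `(x', B3 + α(t) E11)` are in `DD S` -/
def Curve3 (S : Set (ℝ × ℝ)) (Y : Set (Matrix (Fin 3) (Fin 3) ℝ)) (α : ℝ[X]) : Prop :=
  α.eval 0 = 0 ∧ α ≠ 0 ∧ ∀ t > 0, ∀ x' ∈ Y, (x', (form3 1 (α.eval t), (0 : Fin 3 → ℝ))) ∈ DD S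

/-- (α): uses `drift` -/
def alpha3Statement : Prop :=
  ∀ (S : Set (ℝ × ℝ)) (hS : IsClosed S) (U : UAct (Fin 3) 1) (hU : ∀ w, U.u w = u3 (w 0))
    (Y : Set (Matrix (Fin 3) (Fin 3) ℝ)) (x : Matrix (Fin 3) (Fin 3) ℝ) (hret : Ret U Y x)
    (g : ℕ → Matrix (Fin 3) (Fin 3) ℝ) (hg : Tendsto g atTop (𝓝 1)) (hdet : ∀ i, (g i).det = 1)
    (hD : ∀ i, (x, act p3 (g i)) ∈ DD S)
    (hnf : ∀ i, ∃ t, act (act p3 (g i)) (u3 t) ≠ act p3 (g i)),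
    ∃ α : ℝ[X], Curve3 S Y α

/-- structure of `g` near 1 with `B3 ∘ g` fixed -/
def struct3Statement : Prop :=
  ∀ (g : ℕ → Matrix (Fin 3) (Fin 3) ℝ) (hg : Tendsto g atTop (𝓝 1)) (hdet : ∀ i, (g i).det = 1)
    (hf : ∀ i t, act (act p3 (g i)) (u3 t) = act p3 (g i)),
    ∃ (h : ℕ → Matrix (Fin 3) (Fin 3) ℝ) (α : ℕ → ℝ), Tendsto h atTop (𝓝 1) ∧
      Tendsto α atTop (𝓝 0) ∧ ∀ i, g i = h i * v3 (α i) ∧ (h i)ᵀ * B3 * h i = B3 ∧ (h i).det = 1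

/-- (β.i) -/
def beta1_3Statement : Prop :=
  ∀ (x : Matrix (Fin 3) (Fin 3) ℝ) (hx : x.det = 1)
    (hT : ∀ w : Fin 3 → ℤ, w ≠ 0 → ¬ ∃ c : ℝ, iv w = c • (c3 ᵥ* x))
    (t : ℕ → ℝ) (ht : Tendsto t atTop atTop) (γ : ℕ → Matrix (Fin 3) (Fin 3) ℝ)
    (hγ : ∀ i, γ i ∈ Gam (Fin 3)) (h : ℕ → Matrix (Fin 3) (Fin 3) ℝ) (α : ℕ → ℝ)
    (hh : Tendsto h atTop (𝓝 1)) (hα : Tendsto α atTop (𝓝 0))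
    (hB : ∀ i, (h i)ᵀ * B3 * h i = B3) (hd : ∀ i, (h i).det = 1)
    (heq : ∀ i, u3 (t i) * x * γ i = h i * v3 (α i) * x),
    ∀ᶠ i in atTop, h i 0 1 ≠ 0

/-- (β.ii): uses `so3_drift` -/
def beta2_3Statement : Prop :=
  ∀ (U : UAct (Fin 3) 1) (hU : ∀ w, U.u w = u3 (w 0))
    (Y : Set (Matrix (Fin 3) (Fin 3) ℝ)) (hY : Inv U Y) (x : Matrix (Fin 3) (Fin 3) ℝ)
    (hx : x ∈ Y) (hret : Ret U Y x)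
    (h : ℕ → Matrix (Fin 3) (Fin 3) ℝ) (α : ℕ → ℝ)
    (hh : Tendsto h atTop (𝓝 1)) (hα : Tendsto α atTop (𝓝 0))
    (hB : ∀ i, (h i)ᵀ * B3 * h i = B3) (hd : ∀ i, (h i).det = 1)
    (hin : ∀ i, h i * v3 (α i) * x ∈ Y) (hne : ∀ i, h i 0 1 ≠ 0),
    ∀ l > 0, ∀ y ∈ Y, a3 l * y ∈ Y

/-- (β.iii) -/
def beta3_3Statement : Prop :=
  ∀ (S : Set (ℝ × ℝ)) (hS : IsClosed S) (U : UAct (Fin 3) 1) (hU : ∀ w, U.u w = u3 (w 0))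
    (Y : Set (Matrix (Fin 3) (Fin 3) ℝ)) (hY : Inv U Y) (x : Matrix (Fin 3) (Fin 3) ℝ)
    (hx : x ∈ Y) (hret : Ret U Y x) (hA : ∀ l > 0, ∀ y ∈ Y, a3 l * y ∈ Y)
    (α : ℕ → ℝ) (hα : Tendsto α atTop (𝓝 0)) (hne : ∀ i, α i ≠ 0)
    (hD : ∀ i, (x, (form3 1 (2 * α i), (0 : Fin 3 → ℝ))) ∈ DD S),
    ∃ β : ℝ[X], Curve3 S Y β

/-- (β.iv) -/
def beta4_3Statement : Prop :=
  ∀ (x : Matrix (Fin 3) (Fin 3) ℝ) (hx : x.det = 1)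
    (hT : ∀ R : Matrix (Fin 3) (Fin 3) ℤ, R ≠ 0 → ¬ ∃ c : ℝ, im R = c • (xᵀ * B3 * x))
    (t : ℕ → ℝ) (ht : Tendsto t atTop atTop) (γ : ℕ → Matrix (Fin 3) (Fin 3) ℝ)
    (hγ : ∀ i, γ i ∈ Gam (Fin 3)) (h : ℕ → Matrix (Fin 3) (Fin 3) ℝ)
    (hh : Tendsto h atTop (𝓝 1))
    (hB : ∀ i, (h i)ᵀ * B3 * h i = B3) (hd : ∀ i, (h i).det = 1)
    (hne : ∀ i, h i 0 1 ≠ 0)
    (heq : ∀ i, u3 (t i) * x * γ i = h i * x), False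

/-- assembly of the previous ones with `minset` -/
def curve3Statement : Prop :=
  ∀ (S : Set (ℝ × ℝ)) (hS : IsClosed S) (x0 : Matrix (Fin 3) (Fin 3) ℝ) (hx0 : x0 ∈ ns TL3)
    (hD : (x0, p3) ∈ DD S),
    ∃ (U : UAct (Fin 3) 1) (Y : Set (Matrix (Fin 3) (Fin 3) ℝ)) (x : Matrix (Fin 3) (Fin 3) ℝ)
      (α : ℝ[X]), (∀ w, U.u w = u3 (w 0)) ∧ Inv U Y ∧ x ∈ Y ∩ ns TL3 ∧ Curve3 S Y α

/-- limit step: uses `NL_seq` (empty list of tubes), `nd_path`, `wt_gen` -/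
def limit3Statement : Prop :=
  ∀ (S : Set (ℝ × ℝ)) (hS : IsClosed S) (U : UAct (Fin 3) 1) (hU : ∀ w, U.u w = u3 (w 0))
    (Y : Set (Matrix (Fin 3) (Fin 3) ℝ)) (hY : Inv U Y) (x : Matrix (Fin 3) (Fin 3) ℝ)
    (hx : x ∈ Y) (α : ℝ[X]) (hC : Curve3 S Y α),
    ∃ z : Matrix (Fin 3) (Fin 3) ℝ, z.det = 1 ∧
      ∀ ρ : ℝ, (z, (form3 1 ρ, (0 : Fin 3 → ℝ))) ∈ DD S

def final3Statement : Prop :=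
  ∀ (S : Set (ℝ × ℝ)) (z : Matrix (Fin 3) (Fin 3) ℝ) (hz : z.det = 1)
    (h : ∀ ρ : ℝ, (z, (form3 1 ρ, (0 : Fin 3 → ℝ))) ∈ DD S), ∀ a : ℝ, (a, (0:ℝ)) ∈ S

/-! ## App2 -/

def p4 : W (Fin 4) := (B4, L4)
/-- the covector `x1` -/
def c4 : Fin 4 → ℝ := ![1,0,0,0]
noncomputable def F4 : Submodule ℝ (Matrix (Fin 4) (Fin 4) ℝ) :=
  Submodule.span ℝ {B4, vecMulVec L4 L4}
noncomputable def TL4 : List (Tube (Fin 4)) := [tube2 F4, tube1 c4, tube1 L4]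
noncomputable def z4 (c : ℝ) : Matrix (Fin 4) (Fin 4) ℝ := Matrix.diagonal ![c, c, c, (c^3)⁻¹]
def form4 (θ α β γ : ℝ) : Matrix (Fin 4) (Fin 4) ℝ := !![α,0,θ,β; 0,-θ,0,0; θ,0,0,0; β,0,0,γ]
def cov4 (a b : ℝ) : Fin 4 → ℝ := ![b,0,0,a]

def U4_existsStatement : Prop := ∃ U : UAct (Fin 4) 1, ∀ w, U.u w = u4 (w 0)
def TL4_factsStatement : Prop :=
  UniqL TL4 ∧
  (∀ t : ℝ, ∀ T ∈ TL4, ∀ v, T.Pi v = 0 → ract false T.k (u4 t) v = v) ∧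
  ∀ g : Matrix (Fin 4) (Fin 4) ℝ, g ∈ ns TL4 ↔ (g.det = 1 ∧
    (∀ w : Fin 4 → ℤ, w ≠ 0 → ¬ ∃ c : ℝ, iv w = c • (L4 ᵥ* g)) ∧
    (∀ w : Fin 4 → ℤ, w ≠ 0 → ¬ ∃ c : ℝ, iv w = c • (c4 ᵥ* g)) ∧
    (∀ R : Matrix (Fin 4) (Fin 4) ℤ, R ≠ 0 → ¬ ∃ a b : ℝ,
      im R = a • (gᵀ * B4 * g) + b • vecMulVec (L4 ᵥ* g) (L4 ᵥ* g)))
def conj4Statement : Prop :=
  (∀ r, act p4 (u4 r)ᵀ = p4) ∧
  ∀ g : Matrix (Fin 4) (Fin 4) ℝ, g.det = 1 →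
    (∀ w : Fin 4 → ℤ, w ≠ 0 → ¬ ∃ c : ℝ, iv w = c • (L4 ᵥ* g)) →
    (∀ R : Matrix (Fin 4) (Fin 4) ℤ, R ≠ 0 → ¬ ∃ a b : ℝ,
      im R = a • (gᵀ * B4 * g) + b • vecMulVec (L4 ᵥ* g) (L4 ᵥ* g)) →
    ∃ r : ℝ, (u4 r)ᵀ * g ∈ ns TL4
def fixed4Statement : Prop :=
  (∀ q : W (Fin 4), q.1ᵀ = q.1 → (∀ t, act q (u4 t) = q) →
    ∃ θ α β γ a b, q = (form4 θ α β γ, cov4 a b)) ∧
  (∀ θ α β γ a b t, act (form4 θ α β γ, cov4 a b) (u4 t) = (form4 θ α β γ, cov4 a b)) ∧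
  (∀ θ α β γ a b, (form4 θ α β γ, cov4 a b) ∈ closure {q | ∃ g, g.det = 1 ∧ q = act p4 g} →
    θ^3 * γ = 0 ∧ θ^3 * a^2 = 1) ∧
  (∀ b μ α, act p4 (n4 b μ α) = (form4 1 (2*α) μ 0, cov4 1 b)) ∧
  (∀ c b μ α, c ≠ 0 → act p4 (z4 c * n4 b μ α) =
    (form4 (c^2) (2*c^2*α) (c^2*μ) 0, cov4 (c^3)⁻¹ ((c^3)⁻¹ * b))) ∧
  (∀ t, act p4 (u4 t) = p4) ∧ (∀ l, l ≠ 0 → act p4 (a4 l) = p4)
def alg4Statement : Prop :=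
  (∀ b μ α b' μ' α', n4 b μ α * n4 b' μ' α' = n4 (b+b') (μ+μ') (α+α'+μ*b')) ∧
  (∀ b μ α t, n4 b μ α * u4 t = u4 t * n4 b μ α) ∧
  (∀ c t, z4 c * u4 t = u4 t * z4 c) ∧ (∀ c l, z4 c * a4 l = a4 l * z4 c) ∧
  (∀ l b μ α, l ≠ 0 → a4 l * n4 b μ α = n4 (l*b) (l*μ) (l^2*α) * a4 l) ∧
  (∀ s t, u4 s * u4 t = u4 (s+t)) ∧ (∀ t, (u4 t).det = 1) ∧ (∀ b μ α, (n4 b μ α).det = 1) ∧
  (∀ l, l ≠ 0 → (a4 l).det = 1) ∧ (∀ c, c ≠ 0 → (z4 c).det = 1) ∧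
  (∀ l l', l ≠ 0 → l' ≠ 0 → a4 l * a4 l' = a4 (l*l'))

def Curve4 (S : Set (ℝ × ℝ)) (Y : Set (Matrix (Fin 4) (Fin 4) ℝ)) (b μ α : ℝ[X]) : Prop :=
  b.eval 0 = 0 ∧ μ.eval 0 = 0 ∧ α.eval 0 = 0 ∧ (b ≠ 0 ∨ μ ≠ 0 ∨ α ≠ 0) ∧
    ∀ t > 0, ∀ x' ∈ Y, (x', act p4 (n4 (b.eval t) (μ.eval t) (α.eval t))) ∈ DD S

/-- (α): uses `drift` -/
def alpha4Statement : Prop :=
  ∀ (S : Set (ℝ × ℝ)) (hS : IsClosed S) (U : UAct (Fin 4) 1) (hU : ∀ w, U.u w = u4 (w 0))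
    (Y : Set (Matrix (Fin 4) (Fin 4) ℝ)) (x : Matrix (Fin 4) (Fin 4) ℝ) (hret : Ret U Y x)
    (g : ℕ → Matrix (Fin 4) (Fin 4) ℝ) (hg : Tendsto g atTop (𝓝 1)) (hdet : ∀ i, (g i).det = 1)
    (hD : ∀ i, (x, act p4 (g i)) ∈ DD S)
    (hnf : ∀ i, ∃ t, act (act p4 (g i)) (u4 t) ≠ act p4 (g i)),
    ∃ b μ α : ℝ[X], Curve4 S Y b μ α

/-- the stabiliser of `p4` is `SO(B3) ⊕ 1` -/
def hblockStatement : Prop :=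
  ∀ h : Matrix (Fin 4) (Fin 4) ℝ, h.det = 1 → act p4 h = p4 →
    (∀ i : Fin 3, h i.castSucc 3 = 0 ∧ h 3 i.castSucc = 0) ∧ h 3 3 = 1 ∧
    (h.submatrix Fin.castSucc Fin.castSucc)ᵀ * B3 * (h.submatrix Fin.castSucc Fin.castSucc) = B3 ∧
    (h.submatrix Fin.castSucc Fin.castSucc).det = 1

def struct4Statement : Prop :=
  ∀ (g : ℕ → Matrix (Fin 4) (Fin 4) ℝ) (hg : Tendsto g atTop (𝓝 1)) (hdet : ∀ i, (g i).det = 1)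
    (hf : ∀ i t, act (act p4 (g i)) (u4 t) = act p4 (g i)),
    ∃ (i0 : ℕ) (h : ℕ → Matrix (Fin 4) (Fin 4) ℝ) (c b μ α : ℕ → ℝ), Tendsto h atTop (𝓝 1) ∧
      Tendsto c atTop (𝓝 1) ∧ Tendsto b atTop (𝓝 0) ∧ Tendsto μ atTop (𝓝 0) ∧
      Tendsto α atTop (𝓝 0) ∧ ∀ i ≥ i0, 0 < c i ∧ g i = h i * z4 (c i) * n4 (b i) (μ i) (α i) ∧
        act p4 (h i) = p4 ∧ (h i).det = 1

/-- (β.i) -/
def beta1_4Statement : Prop :=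
  ∀ (x : Matrix (Fin 4) (Fin 4) ℝ) (hx : x.det = 1)
    (hT : ∀ w : Fin 4 → ℤ, w ≠ 0 → ¬ ∃ c : ℝ, iv w = c • (c4 ᵥ* x))
    (t : ℕ → ℝ) (ht : Tendsto t atTop atTop) (γ : ℕ → Matrix (Fin 4) (Fin 4) ℝ)
    (hγ : ∀ i, γ i ∈ Gam (Fin 4)) (h : ℕ → Matrix (Fin 4) (Fin 4) ℝ) (c b μ α : ℕ → ℝ)
    (hh : Tendsto h atTop (𝓝 1)) (hc : Tendsto c atTop (𝓝 1)) (hb : Tendsto b atTop (𝓝 0))
    (hμ : Tendsto μ atTop (𝓝 0)) (hα : Tendsto α atTop (𝓝 0)) (hc0 : ∀ i, 0 < c i)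
    (hB : ∀ i, act p4 (h i) = p4) (hd : ∀ i, (h i).det = 1)
    (heq : ∀ i, u4 (t i) * x * γ i = h i * z4 (c i) * n4 (b i) (μ i) (α i) * x),
    ∀ᶠ i in atTop, h i 0 1 ≠ 0

/-- (β.ii): uses `so3_drift`, `hblock` -/
def beta2_4Statement : Prop :=
  ∀ (U : UAct (Fin 4) 1) (hU : ∀ w, U.u w = u4 (w 0))
    (Y : Set (Matrix (Fin 4) (Fin 4) ℝ)) (hY : Inv U Y) (x : Matrix (Fin 4) (Fin 4) ℝ)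
    (hx : x ∈ Y) (hret : Ret U Y x)
    (h : ℕ → Matrix (Fin 4) (Fin 4) ℝ) (c b μ α : ℕ → ℝ)
    (hh : Tendsto h atTop (𝓝 1)) (hc : Tendsto c atTop (𝓝 1)) (hb : Tendsto b atTop (𝓝 0))
    (hμ : Tendsto μ atTop (𝓝 0)) (hα : Tendsto α atTop (𝓝 0)) (hc0 : ∀ i, 0 < c i)
    (hB : ∀ i, act p4 (h i) = p4) (hd : ∀ i, (h i).det = 1)
    (hin : ∀ i, h i * z4 (c i) * n4 (b i) (μ i) (α i) * x ∈ Y) (hne : ∀ i, h i 0 1 ≠ 0),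
    ∀ l > 0, ∀ y ∈ Y, a4 l * y ∈ Y

/-- (β.iii) -/
def beta3_4Statement : Prop :=
  ∀ (S : Set (ℝ × ℝ)) (hS : IsClosed S) (U : UAct (Fin 4) 1) (hU : ∀ w, U.u w = u4 (w 0))
    (Y : Set (Matrix (Fin 4) (Fin 4) ℝ)) (hY : Inv U Y) (x : Matrix (Fin 4) (Fin 4) ℝ)
    (hx : x ∈ Y) (hret : Ret U Y x) (hA : ∀ l > 0, ∀ y ∈ Y, a4 l * y ∈ Y)
    (c b μ α : ℕ → ℝ) (hc : Tendsto c atTop (𝓝 1)) (hb : Tendsto b atTop (𝓝 0))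
    (hμ : Tendsto μ atTop (𝓝 0)) (hα : Tendsto α atTop (𝓝 0)) (hc0 : ∀ i, 0 < c i)
    (hne : ∀ i, b i ≠ 0 ∨ μ i ≠ 0 ∨ α i ≠ 0)
    (hD : ∀ i, (x, act p4 (z4 (c i) * n4 (b i) (μ i) (α i))) ∈ DD S),
    ∃ b' μ' α' : ℝ[X], Curve4 S Y b' μ' α'

/-- (β.iv) -/
def beta4_4Statement : Prop :=
  ∀ (x : Matrix (Fin 4) (Fin 4) ℝ) (hx : x.det = 1)
    (hT : ∀ w : Fin 4 → ℤ, w ≠ 0 → ¬ ∃ c : ℝ, iv w = c • (L4 ᵥ* x))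
    (t : ℕ → ℝ) (ht : Tendsto t atTop atTop) (γ : ℕ → Matrix (Fin 4) (Fin 4) ℝ)
    (hγ : ∀ i, γ i ∈ Gam (Fin 4)) (h : ℕ → Matrix (Fin 4) (Fin 4) ℝ) (c : ℕ → ℝ)
    (hh : Tendsto h atTop (𝓝 1)) (hc : Tendsto c atTop (𝓝 1)) (hc0 : ∀ i, 0 < c i)
    (hB : ∀ i, act p4 (h i) = p4) (hd : ∀ i, (h i).det = 1) (hne : ∀ i, h i 0 1 ≠ 0)
    (heq : ∀ i, u4 (t i) * x * γ i = h i * z4 (c i) * x), False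

/-- assembly with `minset` -/
def curve4Statement : Prop :=
  ∀ (S : Set (ℝ × ℝ)) (hS : IsClosed S) (x0 : Matrix (Fin 4) (Fin 4) ℝ) (hx0 : x0 ∈ ns TL4)
    (hD : (x0, p4) ∈ DD S),
    ∃ (U : UAct (Fin 4) 1) (Y : Set (Matrix (Fin 4) (Fin 4) ℝ)) (x : Matrix (Fin 4) (Fin 4) ℝ)
      (b μ α : ℝ[X]), (∀ w, U.u w = u4 (w 0)) ∧ Inv U Y ∧ x ∈ Y ∩ ns TL4 ∧ Curve4 S Y b μ α

/-- growth of fixed tensors under `a4 l`, `l → ∞`, off the tubes -/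
def grow4Statement : Prop :=
  ∀ (y : Matrix (Fin 4) (Fin 4) ℝ) (hy : y.det = 1)
    (h1 : ∀ w : Fin 4 → ℤ, w ≠ 0 → ¬ ∃ c : ℝ, iv w = c • (L4 ᵥ* y))
    (h2 : ∀ R : Matrix (Fin 4) (Fin 4) ℤ, R ≠ 0 → ¬ ∃ a b : ℝ,
      im R = a • (yᵀ * B4 * y) + b • vecMulVec (L4 ᵥ* y) (L4 ᵥ* y)) (R : ℝ),
    ∃ l0 : ℝ, ∀ l ≥ l0, ∀ T ∈ TL4, ∀ w : (Fin T.k → Fin 4) → ℤ, w ≠ 0 →
      (∀ t, ract false T.k (u4 t) (ract false T.k y (iv w)) = ract false T.k y (iv w)) →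
      ∃ c, R ≤ |ract false T.k (a4 l * y) (iv w) c|

/-- good times: the base `n4(t) x` stays nonsingular for the first and third tube, and the
curve has nonzero velocity -/
def goodt4Statement : Prop :=
  ∀ (x : Matrix (Fin 4) (Fin 4) ℝ) (hx : x ∈ ns TL4) (b μ α : ℝ[X]) (hb0 : b.eval 0 = 0)
    (hμ0 : μ.eval 0 = 0) (hα0 : α.eval 0 = 0) (hne : b ≠ 0 ∨ μ ≠ 0 ∨ α ≠ 0),
    ∃ t > 0, (∀ w : Fin 4 → ℤ, w ≠ 0 → ¬ ∃ c : ℝ,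
        iv w = c • (L4 ᵥ* (n4 (b.eval t) (μ.eval t) (α.eval t) * x))) ∧
      (∀ R : Matrix (Fin 4) (Fin 4) ℤ, R ≠ 0 → ¬ ∃ a' b' : ℝ,
        im R = a' • ((n4 (b.eval t) (μ.eval t) (α.eval t) * x)ᵀ * B4 *
            (n4 (b.eval t) (μ.eval t) (α.eval t) * x)) +
          b' • vecMulVec (L4 ᵥ* (n4 (b.eval t) (μ.eval t) (α.eval t) * x))
            (L4 ᵥ* (n4 (b.eval t) (μ.eval t) (α.eval t) * x))) ∧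
      ((derivative α).eval t ≠ (derivative μ).eval t * b.eval t ∨
        (derivative α = derivative μ * b ∧
          ((derivative b).eval t ≠ 0 ∨ (derivative μ).eval t ≠ 0)))

/-- limit step: uses `NL_seq`, `nd_path`, `growth`, `wt_gen`, `grow4`, `goodt4` -/
def limit4Statement : Prop :=
  ∀ (S : Set (ℝ × ℝ)) (hS : IsClosed S) (U : UAct (Fin 4) 1) (hU : ∀ w, U.u w = u4 (w 0))
    (Y : Set (Matrix (Fin 4) (Fin 4) ℝ)) (hY : Inv U Y) (x : Matrix (Fin 4) (Fin 4) ℝ)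
    (hx : x ∈ Y ∩ ns TL4) (b μ α : ℝ[X]) (hC : Curve4 S Y b μ α),
    ∃ z ∈ ns TL4, (∀ ρ : ℝ, (z, act p4 (n4 0 0 ρ)) ∈ DD S) ∨
      ∃ b1 μ1 : ℝ, (b1 ≠ 0 ∨ μ1 ≠ 0) ∧
        ∀ ρ : ℝ, (z, act p4 (n4 (ρ*b1) (ρ*μ1) (ρ^2*b1*μ1/2))) ∈ DD S

/-- conclusion: uses `dense_lin`, `oppn` -/
def final4Statement : Prop :=
  ∀ (S : Set (ℝ × ℝ)) (hS : IsClosed S) (z : Matrix (Fin 4) (Fin 4) ℝ) (hz : z ∈ ns TL4)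
    (h : (∀ ρ : ℝ, (z, act p4 (n4 0 0 ρ)) ∈ DD S) ∨
      ∃ b1 μ1 : ℝ, (b1 ≠ 0 ∨ μ1 ≠ 0) ∧
        ∀ ρ : ℝ, (z, act p4 (n4 (ρ*b1) (ρ*μ1) (ρ^2*b1*μ1/2))) ∈ DD S), S = univ

end QL
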