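import Pool.Agent.Helper27_QL.Defs

/-!
# All module statements of the MP_6429f2_nt squad as propositions
For a module `X` prove `theorem x (h1 : QL.AStatement) ... : QL.XStatement` in your own file.
Proof sketches: `PLAN.md` in this folder.
-/

set_option autoImplicit false
set_option linter.unusedVariables false
open Matrix Polynomial MeasureTheory Set Filter Topology
namespace QL




/-! ## M1 Remez -/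
def remezStatement : Prop :=
  ∀ (D : ℕ) (η : ℝ) (hη : 0 < η),
    ∃ c : ℝ, 0 < c ∧ ∀ p : ℝ[X], p.natDegree ≤ D →
    ∀ a b e : ℝ, a < b → e ∈ Icc a b →
      volume {x ∈ Icc a b | |p.eval x| < c * |p.eval e|} ≤ ENNReal.ofReal (η * (b - a))

/-! ## M2 intervals -/
/-- component of `τ` in `O ∩ [α,β]` -/
def Jc (O : Set ℝ) (α β τ : ℝ) : Set ℝ := Set.ordConnectedComponent (O ∩ Icc α β) τ

def Jc_specStatement : Prop :=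
  ∀ (O : Set ℝ) (hO : IsOpen O) (α β τ τ0 : ℝ) (hτ : τ ∈ O ∩ Icc α β)
    (h0 : τ0 ∈ Icc α β) (h0' : τ0 ∉ O),
    τ ∈ Jc O α β τ ∧ Jc O α β τ ⊆ O ∩ Icc α β ∧ (∃ V, IsOpen V ∧ Jc O α β τ = V ∩ Icc α β) ∧
    (∀ τ' ∈ Jc O α β τ, Jc O α β τ' = Jc O α β τ) ∧
    ∃ a b e : ℝ, a < b ∧ e ∈ Icc a b ∧ e ∈ Icc α β ∧ e ∉ O ∧ Ioo a b ⊆ Jc O α β τ ∧
      Jc O α β τ ⊆ Icc a b ∧ Icc a b ⊆ Icc α β

/-- covering by intervals with total length at most twice the length of the base interval -/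
def cover_twoStatement : Prop :=
  ∀ {κ : Type} (α β : ℝ) (K : Set ℝ) (hK : IsCompact K) (hKs : K ⊆ Icc α β)
    (I : κ → Set ℝ) (hI : ∀ a, ∃ V, IsOpen V ∧ I a = V ∩ Icc α β) (hc : ∀ a, (I a).OrdConnected)
    (hcov : K ⊆ ⋃ a, I a),
    ∃ s : Finset κ, K ⊆ ⋃ a ∈ s, I a ∧
      ∑ a ∈ s, volume (I a) ≤ 2 * ENNReal.ofReal (β - α)

/-! ## M3 nondivergence -/
def nondivStatement : Prop :=
  ∀ (ι : Type) [Fintype ι] [DecidableEq ι] (D : ℕ) (κ ε : ℝ) (hκ : 0 < κ)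
    (hε : 0 < ε),
    ∃ ε1 : ℝ, 0 < ε1 ∧ ∀ P : Matrix ι ι ℝ[X], (∀ i j, (P i j).natDegree ≤ D) →
    (∀ τ, (ev P τ).det = 1) → ND κ (ev P) →
    volume {τ ∈ Icc (0 : ℝ) 1 | ∃ v : ι → ℤ, v ≠ 0 ∧ ∀ i, |(ev P τ *ᵥ iv v) i| < ε1} ≤
      ENNReal.ofReal ε

/-! ## M4 Mahler -/
def mahlerStatement : Prop :=
  ∀ (ι : Type) [Fintype ι] [DecidableEq ι] (ε : ℝ) (hε : 0 < ε),
    ∃ C : ℝ, ∀ g : Matrix ι ι ℝ, g.det = 1 →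
      (∀ v : ι → ℤ, v ≠ 0 → ∃ i, ε ≤ |(g *ᵥ iv v) i|) →
      ∃ γ ∈ Gam ι, ∀ i j, |(g * γ) i j| ≤ C

/-! ## M5 nondivergence and linearization -/
def NLStatement : Prop :=
  ∀ (ι : Type) [Fintype ι] [DecidableEq ι] [Nonempty ι] (L : List (Tube ι))
    (hU : UniqL L) (D : ℕ) (κ : ℝ) (hκ : 0 < κ) (δ : ℕ → ℝ) (hδ : ∀ R, 0 < δ R) (ε : ℝ)
    (hε : 0 < ε),
    ∃ C : Set (Matrix ι ι ℝ), IsCompact C ∧ C ⊆ ns L ∧ ∀ V, IsOpen V → C ⊆ V →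
      ∃ R0 : ℕ, ∀ P : Matrix ι ι ℝ[X], (∀ i j, (P i j).natDegree ≤ D) →
        (∀ τ, (ev P τ).det = 1) → ND κ (ev P) → Hc L δ R0 (ev P) →
        volume {τ ∈ Icc (0 : ℝ) 1 | ∀ γ ∈ Gam ι, ev P τ * γ ∉ V} ≤ ENNReal.ofReal ε

/-- sequence version used in the limit steps -/
def NL_seqStatement : Prop :=
  ∀ (ι : Type) [Fintype ι] [DecidableEq ι] [Nonempty ι] (L : List (Tube ι))
    (hU : UniqL L) (D : ℕ) (κ : ℝ) (hκ : 0 < κ) (P : ℕ → Matrix ι ι ℝ[X])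
    (hdeg : ∀ m i j, (P m i j).natDegree ≤ D) (hdet : ∀ m τ, (ev (P m) τ).det = 1)
    (hND : ∀ m, ND κ (ev (P m)))
    (hH : ∀ R : ℝ, ∃ m0, ∀ m ≥ m0, ∀ T ∈ L, ∀ w : (Fin T.k → ι) → ℤ, w ≠ 0 →
      ∃ τ ∈ Icc (0 : ℝ) 1, ∃ c, R ≤ |ract false T.k (ev (P m) τ) (iv w) c|),
    ∃ z ∈ ns L, ∃ f : ℕ → ℕ, StrictMono f ∧ ∃ τ : ℕ → ℝ, (∀ m, τ m ∈ Icc (0 : ℝ) 1) ∧
      ∃ γ : ℕ → Matrix ι ι ℝ, (∀ m, γ m ∈ Gam ι) ∧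
        Tendsto (fun m => ev (P (f m)) (τ m) * γ m) atTop (𝓝 z)

/-! ## M6 minimal sets -/
def minsetStatement : Prop :=
  ∀ {ι : Type} [Fintype ι] [DecidableEq ι] [Nonempty ι] {d : ℕ} (U : UAct ι d)
    (L : List (Tube ι)) (hU : UniqL L)
    (hfix : ∀ T ∈ L, ∀ v, T.Pi v = 0 → ∀ w, ract false T.k (U.u w) v = v)
    (X : Set (Matrix ι ι ℝ)) (hX : Inv U X) (hne : (X ∩ ns L).Nonempty),
    ∃ Y ⊆ X, Inv U Y ∧ (Y ∩ ns L).Nonempty ∧ ∀ x ∈ Y ∩ ns L, Ret U Y x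

/-! growth lemmas used also in the limit steps -/

/-- `θ` is a good direction for `x`: every integer tensor (of vectors or covectors, any degree)
which is fixed along `θ` is fixed by all of `U` -/
def GoodDir {ι : Type} [Fintype ι] [DecidableEq ι] {d : ℕ} (U : UAct ι d) (x : Matrix ι ι ℝ)
    (θ : Fin d → ℝ) : Prop :=
  ∀ (b : Bool) (k : ℕ) (w : (Fin k → ι) → ℤ),
    (∀ s : ℝ, ract b k (U.u (s • θ)) (ract b k x (iv w)) = ract b k x (iv w)) →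
    ∀ w', ract b k (U.u w') (ract b k x (iv w)) = ract b k x (iv w)

def goodDir_denseStatement : Prop :=
  ∀ {ι : Type} [Fintype ι] [DecidableEq ι] {d : ℕ} (U : UAct ι d)
    (x : Matrix ι ι ℝ) (hx : x.det = 1),
    Dense {θ : Fin d → ℝ | GoodDir U x θ}

def growthStatement : Prop :=
  ∀ {ι : Type} [Fintype ι] [DecidableEq ι] {d : ℕ} (U : UAct ι d)
    (x g0 : Matrix ι ι ℝ) (hx : x.det = 1) (hg : g0.det = 1) (θ : Fin d → ℝ)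
    (hθ : GoodDir U x θ) (b : Bool) (k : ℕ) (R : ℝ),
    ∃ T0 : ℝ, ∀ T ≥ T0,
    ∀ w : (Fin k → ι) → ℤ, (∃ w', ract b k (U.u w') (ract b k x (iv w)) ≠ ract b k x (iv w)) →
      ∃ τ ∈ Icc (0 : ℝ) 1, ∃ c, R ≤ |ract b k (g0 * U.u ((τ * T) • θ) * x) (iv w) c|

/-- Pluecker vector of an `ι × k` matrix -/
def pl {ι : Type} {k : ℕ} (A : Matrix ι (Fin k) ℝ) : (Fin k → ι) → ℝ :=
  fun i => (A.submatrix i id).det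

def pl_mulStatement : Prop :=
  ∀ {ι : Type} [Fintype ι] [DecidableEq ι] {k : ℕ} (g : Matrix ι ι ℝ)
    (A : Matrix ι (Fin k) ℝ),
    pl (g * A) = ract true k g (pl A)




/-! # Sub-lemmas -/

/-! ## M2' covering bound (from cover_two) -/
def cover_boundStatement : Prop :=
  ∀ (α β : ℝ) (J : Set ℝ) (hJ : J ⊆ Icc α β) (ε : ℝ) (hε : 0 ≤ ε)
    (h : ∀ τ ∈ J, ∃ I : Set ℝ, τ ∈ I ∧ (∃ V, IsOpen V ∧ I = V ∩ Icc α β) ∧ I.OrdConnected ∧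
      volume (J ∩ I) ≤ ENNReal.ofReal ε * volume I),
    volume J ≤ ENNReal.ofReal (2 * ε) * ENNReal.ofReal (β - α)

/-! ## M3a abstract Kleinbock-Margulis -/
/-- uniform sublevel property with modulus `c` -/
def Good (c : ℝ → ℝ) (f : ℝ → ℝ) : Prop :=
  Continuous f ∧ (∀ x, 0 ≤ f x) ∧ ∀ η > 0, ∀ a b e : ℝ, a < b → e ∈ Icc a b →
    volume {x ∈ Icc a b | f x < c η * f e} ≤ ENNReal.ofReal (η * (b - a))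

/-- marked point -/
def Marked {Pos : Type} [PartialOrder Pos] (ψ : Pos → ℝ → ℝ) (ρ δ τ : ℝ) : Prop :=
  ∃ F : Finset Pos, IsChain (· ≤ ·) (F : Set Pos) ∧ (∀ s ∈ F, δ ≤ ψ s τ ∧ ψ s τ ≤ ρ) ∧
    ∀ s ∉ F, IsChain (· ≤ ·) (insert s (F : Set Pos)) → ρ ≤ ψ s τ

def km_abstractStatement : Prop :=
  ∀ (c : ℝ → ℝ) (hc : ∀ η > 0, 0 < c η) (len : ℕ) (ρ ε : ℝ) (hρ : 0 < ρ)
    (hε : 0 < ε),
    ∃ δ > 0, ∀ (Pos : Type) [PartialOrder Pos] (rk : Pos → Fin len) (_ : StrictMono rk)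
      (ψ : Pos → ℝ → ℝ) (_ : ∀ s, Good c (ψ s)) (α β : ℝ) (_ : α < β)
      (_ : ∀ s, ∃ τ ∈ Icc α β, ρ ≤ ψ s τ) (_ : ∀ τ ∈ Icc α β, {s | ψ s τ < ρ}.Finite),
      volume {τ ∈ Icc α β | ¬ Marked ψ ρ δ τ} ≤ ENNReal.ofReal (ε * (β - α))

/-! ## M5 sub-lemmas -/
def uniq_nbhdStatement : Prop :=
  ∀ {ι : Type} [Fintype ι] [DecidableEq ι] (T : Tube ι) (L : List (Tube ι))
    (hU : UniqL (T :: L)) (C : Set (Matrix ι ι ℝ)) (hC : IsCompact C) (hCs : C ⊆ ns L) (R : ℝ),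
    ∃ δ0 > 0, ∃ V, IsOpen V ∧ C ⊆ V ∧ ∀ x ∈ V, x.det = 1 → ∀ w w' : (Fin T.k → ι) → ℤ,
      w ≠ 0 → w' ≠ 0 →
      (∀ c, |ract false T.k x (iv w) c| < R) → (∀ c, |T.Pi (ract false T.k x (iv w)) c| < δ0) →
      (∀ c, |ract false T.k x (iv w') c| < R) → (∀ c, |T.Pi (ract false T.k x (iv w')) c| < δ0) →
      ∃ a b : ℤ, (a ≠ 0 ∨ b ≠ 0) ∧ a • w + b • w' = 0

/-- `V` is a uniqueness set for radius `R` and thickness `δ0` -/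
def UniqSet {ι : Type} [Fintype ι] [DecidableEq ι] (T : Tube ι) (R δ0 : ℝ)
    (V : Set (Matrix ι ι ℝ)) : Prop :=
  ∀ x ∈ V, x.det = 1 → ∀ w w' : (Fin T.k → ι) → ℤ, w ≠ 0 → w' ≠ 0 →
      (∀ c, |ract false T.k x (iv w) c| < R) → (∀ c, |T.Pi (ract false T.k x (iv w)) c| < δ0) →
      (∀ c, |ract false T.k x (iv w') c| < R) → (∀ c, |T.Pi (ract false T.k x (iv w')) c| < δ0) →
      ∃ a b : ℤ, (a ≠ 0 ∨ b ≠ 0) ∧ a • w + b • w' = 0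

def tube_timeStatement : Prop :=
  ∀ {ι : Type} [Fintype ι] [DecidableEq ι] (T : Tube ι) (D : ℕ) (R ε : ℝ)
    (hR : 0 < R) (hε : 0 < ε),
    ∃ R' : ℕ, R < R' ∧ ∀ δ0 > 0, ∃ δ1 > 0, δ1 ≤ δ0 ∧
    ∀ V : Set (Matrix ι ι ℝ), UniqSet T R' δ0 V →
    ∀ P : Matrix ι ι ℝ[X], (∀ i j, (P i j).natDegree ≤ D) → (∀ τ, (ev P τ).det = 1) →
    (∀ w : (Fin T.k → ι) → ℤ, w ≠ 0 → ∃ τ ∈ Icc (0 : ℝ) 1,
      (∃ c, (R' : ℝ) ≤ |ract false T.k (ev P τ) (iv w) c|) ∨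
      (∃ c, δ0 ≤ |T.Pi (ract false T.k (ev P τ) (iv w)) c|)) →
    volume {τ ∈ Icc (0 : ℝ) 1 | (∃ γ ∈ Gam ι, ev P τ * γ ∈ V) ∧
      ∃ w : (Fin T.k → ι) → ℤ, w ≠ 0 ∧ (∀ c, |ract false T.k (ev P τ) (iv w) c| < R) ∧
        (∀ c, |T.Pi (ract false T.k (ev P τ) (iv w)) c| < δ1)} ≤ ENNReal.ofReal ε

/-! ## M6 sub-lemmas -/

/-- the `U`-fixed integer tensors of the lattice `x` -/
def FixL {ι : Type} [Fintype ι] [DecidableEq ι] {d : ℕ} (U : UAct ι d) (b : Bool) (k : ℕ)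
    (x : Matrix ι ι ℝ) : Set ((Fin k → ι) → ℝ) :=
  {v | (∃ w : (Fin k → ι) → ℤ, v = ract b k x (iv w)) ∧ ∀ w', ract b k (U.u w') v = v}

/-- orbit closure -/
def OC {ι : Type} [Fintype ι] [DecidableEq ι] {d : ℕ} (U : UAct ι d) (y : Matrix ι ι ℝ) :
    Set (Matrix ι ι ℝ) := closure {x | ∃ w, ∃ γ ∈ Gam ι, x = U.u w * y * γ}

def OC_invStatement : Prop :=
  ∀ {ι : Type} [Fintype ι] [DecidableEq ι] {d : ℕ} (U : UAct ι d) (y : Matrix ι ι ℝ)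
    (hy : y.det = 1),
    Inv U (OC U y) ∧ y ∈ OC U y

def extremalStatement : Prop :=
  ∀ {ι : Type} [Fintype ι] [DecidableEq ι] {d : ℕ} (U : UAct ι d)
    (L : List (Tube ι)) (K : ℕ) (X : Set (Matrix ι ι ℝ)) (hX : Inv U X)
    (hne : (X ∩ ns L).Nonempty),
    ∃ y0 ∈ X ∩ ns L, ∀ z ∈ OC U y0 ∩ ns L, ∀ b, ∀ k ≤ K, FixL U b k z = FixL U b k y0

/-- a polynomial ray -/
def UAct_rayStatement : Prop :=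
  ∀ {ι : Type} [Fintype ι] [DecidableEq ι] {d : ℕ} (U : UAct ι d),
    ∃ D : ℕ, ∀ (g x : Matrix ι ι ℝ) (θ : Fin d → ℝ) (T : ℝ), ∃ P : Matrix ι ι ℝ[X],
      (∀ i j, (P i j).natDegree ≤ D) ∧ ∀ τ, ev P τ = g * U.u ((τ * T) • θ) * x

def unifdataStatement : Prop :=
  ∀ {ι : Type} [Fintype ι] [DecidableEq ι] {d : ℕ} (U : UAct ι d)
    (L : List (Tube ι)) (K : ℕ) (hK : ∀ T ∈ L, T.k ≤ K) (hK' : Fintype.card ι ≤ K)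
    (y0 : Matrix ι ι ℝ) (hy0 : y0 ∈ ns L),
    ∃ κ > 0, ∃ δ : ℕ → ℝ, (∀ R, 0 < δ R) ∧
    ∀ z ∈ ns L, (∀ b, ∀ k ≤ K, FixL U b k z = FixL U b k y0) → ∀ θ,
      (∀ (b : Bool) (k : ℕ) (w : (Fin k → ι) → ℤ),
        (∀ s : ℝ, ract b k (U.u (s • θ)) (ract b k z (iv w)) = ract b k z (iv w)) →
        ∀ w', ract b k (U.u w') (ract b k z (iv w)) = ract b k z (iv w)) →
      ∀ R0 : ℕ, ∃ T0 : ℝ, ∀ T ≥ T0, ND κ (fun τ => U.u ((τ * T) • θ) * z) ∧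
        Hc L δ R0 (fun τ => U.u ((τ * T) • θ) * z)

/-- ND for paths with moving base (used in the limit steps) -/
def nd_pathStatement : Prop :=
  ∀ {ι : Type} [Fintype ι] [DecidableEq ι] {d : ℕ} (U : UAct ι d)
    (x g0 : Matrix ι ι ℝ) (hx : x.det = 1) (hg : g0.det = 1) (θ : Fin d → ℝ)
    (hθ : ∀ (b : Bool) (k : ℕ) (w : (Fin k → ι) → ℤ),
        (∀ s : ℝ, ract b k (U.u (s • θ)) (ract b k x (iv w)) = ract b k x (iv w)) →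
        ∀ w', ract b k (U.u w') (ract b k x (iv w)) = ract b k x (iv w))
    (κ : ℝ)
    (hfix : ∀ k : ℕ, 0 < k → k < Fintype.card ι → ∀ A : Matrix ι (Fin k) ℤ,
      (∃ i : Fin k → ι, (A.submatrix i id).det ≠ 0) →
      (∀ w, ∀ i : Fin k → ι, ((U.u w * (x * im A)).submatrix i id).det =
        ((x * im A).submatrix i id).det) →
      ∃ i : Fin k → ι, κ ≤ |((g0 * (x * im A)).submatrix i id).det|),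
    ∃ T0 : ℝ, ∀ T ≥ T0, ND κ (fun τ => g0 * U.u ((τ * T) • θ) * x)




/-! ## M9 explicit tubes -/
def kerMap_kerStatement : Prop :=
  ∀ {E : Type} [AddCommGroup E] [Module ℝ E] (F : Submodule ℝ E) (v : E),
    kerMap F v = 0 ↔ v ∈ F

def sing_tube1Statement : Prop :=
  ∀ {ι : Type} [Fintype ι] [DecidableEq ι] (l : ι → ℝ) (g : Matrix ι ι ℝ)
    (hg : g.det = 1),
    Sing (tube1 l) g ↔ ∃ w : ι → ℤ, w ≠ 0 ∧ ∃ c : ℝ, iv w = c • (l ᵥ* g)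

def sing_tube2Statement : Prop :=
  ∀ {ι : Type} [Fintype ι] [DecidableEq ι] (F : Submodule ℝ (Matrix ι ι ℝ))
    (g : Matrix ι ι ℝ) (hg : g.det = 1),
    Sing (tube2 F) g ↔ ∃ R : Matrix ι ι ℤ, R ≠ 0 ∧ ∃ M ∈ F, im R = gᵀ * M * g

def uniq_tube1Statement : Prop :=
  ∀ {ι : Type} [Fintype ι] [DecidableEq ι] (l : ι → ℝ) (L : List (Tube ι))
    (hL : UniqL L),
    UniqL (tube1 l :: L)

def uniq_tube2_lineStatement : Prop :=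
  ∀ {ι : Type} [Fintype ι] [DecidableEq ι] (Q : Matrix ι ι ℝ)
    (L : List (Tube ι)) (hL : UniqL L),
    UniqL (tube2 (Submodule.span ℝ {Q}) :: L)

/-- uses `pencil` -/
def uniq_tube2_pencilStatement : Prop :=
  ∀ {ι : Type} [Fintype ι] [DecidableEq ι] (Q : Matrix ι ι ℝ)
    (l : ι → ℝ) (hl : l ≠ 0)
    (hrk : ∀ a b : ℝ, a ≠ 0 → ¬ ∃ v v' : ι → ℝ, a • Q + b • vecMulVec l l = vecMulVec v v')
    (L : List (Tube ι)) (hL : UniqL L) (hmem : tube1 l ∈ L),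
    UniqL (tube2 (Submodule.span ℝ {Q, vecMulVec l l}) :: L)

def fix_tube1Statement : Prop :=
  ∀ {ι : Type} [Fintype ι] [DecidableEq ι] (l : ι → ℝ) (u : Matrix ι ι ℝ)
    (hu : u.det = 1) (hl : l ᵥ* u = l) (v : (Fin (tube1 l).k → ι) → ℝ)
    (hv : (tube1 l).Pi v = 0),
    ract false (tube1 l).k u v = v

def fix_tube2Statement : Prop :=
  ∀ {ι : Type} [Fintype ι] [DecidableEq ι] (F : Submodule ℝ (Matrix ι ι ℝ))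
    (u : Matrix ι ι ℝ) (hu : u.det = 1) (hF : ∀ M ∈ F, uᵀ * M * u = M)
    (v : (Fin (tube2 F).k → ι) → ℝ) (hv : (tube2 F).Pi v = 0),
    ract false (tube2 F).k u v = v

/-! basic facts on `ract` -/
def tens_mulStatement : Prop :=
  ∀ {ι : Type} [Fintype ι] [DecidableEq ι] (k : ℕ) (A B : Matrix ι ι ℝ),
    tens k (A * B) = tens k A * tens k B
def tens_oneStatement : Prop :=
  ∀ {ι : Type} [DecidableEq ι] (k : ℕ),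
    tens k (1 : Matrix ι ι ℝ) = 1
def ract_mulStatement : Prop :=
  ∀ {ι : Type} [Fintype ι] [DecidableEq ι] (b : Bool) (k : ℕ)
    (g h : Matrix ι ι ℝ) (hg : g.det = 1) (hh : h.det = 1) (w : (Fin k → ι) → ℝ),
    ract b k (g * h) w = ract b k g (ract b k h w)
def ract_oneStatement : Prop :=
  ∀ {ι : Type} [Fintype ι] [DecidableEq ι] (b : Bool) (k : ℕ)
    (w : (Fin k → ι) → ℝ),
    ract b k (1 : Matrix ι ι ℝ) w = w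
def ract_gamStatement : Prop :=
  ∀ {ι : Type} [Fintype ι] [DecidableEq ι] (b : Bool) (k : ℕ) (γ : Matrix ι ι ℝ)
    (hγ : γ ∈ Gam ι) (w : (Fin k → ι) → ℤ),
    ∃ w' : (Fin k → ι) → ℤ, ract b k γ (iv w) = iv w'
/-- finiteness of integer tensors of bounded size, uniformly for `x` in a compact set -/
def fin_bddStatement : Prop :=
  ∀ {ι : Type} [Fintype ι] [DecidableEq ι] (b : Bool) (k : ℕ)
    (C : Set (Matrix ι ι ℝ)) (hC : IsCompact C) (hdet : ∀ x ∈ C, x.det = 1) (R : ℝ),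
    {w : (Fin k → ι) → ℤ | ∃ x ∈ C, ∀ c, |ract b k x (iv w) c| ≤ R}.Finite
def ract_contStatement : Prop :=
  ∀ {ι : Type} [Fintype ι] [DecidableEq ι] (b : Bool) (k : ℕ),
    ContinuousOn (fun y : Matrix ι ι ℝ × ((Fin k → ι) → ℝ) => ract b k y.1 y.2)
      {y | y.1.det = 1}
/-- polynomiality along polynomial paths -/
def ract_polyStatement : Prop :=
  ∀ {ι : Type} [Fintype ι] [DecidableEq ι] (b : Bool) (k D : ℕ),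
    ∃ D' : ℕ,
    ∀ P : Matrix ι ι ℝ[X], (∀ i j, (P i j).natDegree ≤ D) → (∀ τ, (ev P τ).det = 1) →
    ∀ w : (Fin k → ι) → ℝ, ∀ c, ∃ p : ℝ[X], p.natDegree ≤ D' ∧
      ∀ τ, ract b k (ev P τ) w c = p.eval τ




/-! ## M7 basic facts on `DD` and the drift theorem -/
def val_actStatement : Prop :=
  ∀ {ι : Type} [Fintype ι] (q : W ι) (g : Matrix ι ι ℝ) (v : ι → ℝ),
    val (act q g) v = val q (g *ᵥ v)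
def act_actStatement : Prop :=
  ∀ {ι : Type} [Fintype ι] (q : W ι) (g h : Matrix ι ι ℝ),
    act (act q g) h = act q (g * h)
def gam_mul_prmStatement : Prop :=
  ∀ {ι : Type} [Fintype ι] [DecidableEq ι] {γ : Matrix ι ι ℝ} (hγ : γ ∈ Gam ι)
    {v : ι → ℝ} (hv : v ∈ Prm ι),
    γ *ᵥ v ∈ Prm ι
def gam_mulStatement : Prop :=
  ∀ {ι : Type} [Fintype ι] [DecidableEq ι] {γ γ' : Matrix ι ι ℝ} (h : γ ∈ Gam ι)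
    (h' : γ' ∈ Gam ι),
    γ * γ' ∈ Gam ι
def gam_invStatement : Prop :=
  ∀ {ι : Type} [Fintype ι] [DecidableEq ι] {γ : Matrix ι ι ℝ} (h : γ ∈ Gam ι),
    γ⁻¹ ∈ Gam ι
def DD_gamStatement : Prop :=
  ∀ {ι : Type} [Fintype ι] [DecidableEq ι] {S : Set (ℝ × ℝ)} {x : Matrix ι ι ℝ}
    {q : W ι} (h : (x, q) ∈ DD S) {γ : Matrix ι ι ℝ} (hγ : γ ∈ Gam ι),
    (x * γ, q) ∈ DD S
def DD_leftStatement : Prop :=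
  ∀ {ι : Type} [Fintype ι] [DecidableEq ι] {S : Set (ℝ × ℝ)} {x g h : Matrix ι ι ℝ}
    {q : W ι} (hx : (x, q) ∈ DD S) (hgh : h * g = 1),
    (g * x, act q h) ∈ DD S
def DD_closedStatement : Prop :=
  ∀ {ι : Type} [Fintype ι] {S : Set (ℝ × ℝ)} (hS : IsClosed S),
    IsClosed (DD (ι := ι) S)

def driftStatement : Prop :=
  ∀ {ι : Type} [Fintype ι] [DecidableEq ι] {d : ℕ} (U : UAct ι d) (S : Set (ℝ × ℝ))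
    (hS : IsClosed S) (Y : Set (Matrix ι ι ℝ)) (x : Matrix ι ι ℝ) (hret : Ret U Y x)
    (q : ℕ → W ι) (p : W ι) (hq : ∀ i, (x, q i) ∈ DD S) (hlim : Tendsto q atTop (𝓝 p))
    (hnf : ∀ i, ∃ w, act (q i) (U.u w) ≠ q i) (hp : ∀ w, act p (U.u w) = p),
    ∃ P : (Fin d → ℝ) → W ι, P 0 = p ∧ (∃ ω, P ω ≠ p) ∧
      (∀ ω, ∃ (A : Matrix ι ι ℝ[X]) (b : ι → ℝ[X]), ∀ t : ℝ,
        P (t • ω) = (ev A t, fun i => (b i).eval t)) ∧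
      (∀ ω w, act (P ω) (U.u w) = P ω) ∧
      (∀ ω, ∀ x' ∈ Y, (x', P ω) ∈ DD S) ∧
      (∀ ω, P ω ∈ closure {q' | ∃ i w, q' = act (q i) (U.u w)})

/-! ## M8 arithmetic lemmas -/

/-- density of the values of an irrational linear form at primitive vectors off a hyperplane -/
def dense_linStatement : Prop :=
  ∀ {ι : Type} [Fintype ι] (l m : ι → ℝ) (hl : l ≠ 0)
    (hirr : ∀ w : ι → ℤ, w ≠ 0 → ¬ ∃ c : ℝ, iv w = c • l) (hm : m ≠ 0),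
    Dense {t : ℝ | ∃ v ∈ Prm ι, m ⬝ᵥ v ≠ 0 ∧ t = l ⬝ᵥ v}

/-- pencil lemma -/
def pencilStatement : Prop :=
  ∀ {ι : Type} [Fintype ι] (Q : Matrix ι ι ℝ) (l : ι → ℝ) (hl : l ≠ 0)
    (hrk : ∀ a b : ℝ, a ≠ 0 → ¬ ∃ v v' : ι → ℝ, a • Q + b • vecMulVec l l = vecMulVec v v')
    (R R' : Matrix ι ι ℤ) (hR : ∃ a b : ℝ, im R = a • Q + b • vecMulVec l l)
    (hR' : ∃ a b : ℝ, im R' = a • Q + b • vecMulVec l l)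
    (hind : ∀ a b : ℤ, a • R + b • R' = 0 → a = 0 ∧ b = 0),
    ∃ w : ι → ℤ, w ≠ 0 ∧ ∃ c : ℝ, iv w = c • l

/-! ## App1: ternary Oppenheim -/
def B3 : Matrix (Fin 3) (Fin 3) ℝ := !![0,0,1; 0,-1,0; 1,0,0]
noncomputable def u3 (t : ℝ) : Matrix (Fin 3) (Fin 3) ℝ := !![1,0,0; t,1,0; t^2/2,t,1]
noncomputable def a3 (l : ℝ) : Matrix (Fin 3) (Fin 3) ℝ := !![l⁻¹,0,0; 0,1,0; 0,0,l]

def so3_triStatement : Prop :=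
  ∀ (h : Matrix (Fin 3) (Fin 3) ℝ) (hB : hᵀ * B3 * h = B3) (hd : h.det = 1)
    (h01 : h 0 1 = 0) (h00 : 0 < h 0 0),
    ∃ r, h = a3 (h 0 0)⁻¹ * u3 r

def so3_driftStatement : Prop :=
  ∀ (h : ℕ → Matrix (Fin 3) (Fin 3) ℝ) (hB : ∀ i, (h i)ᵀ * B3 * (h i) = B3)
    (hd : ∀ i, (h i).det = 1) (hlim : Tendsto h atTop (𝓝 1)) (hne : ∀ i, h i 0 1 ≠ 0)
    (t : ℕ → ℝ) (τ : ℝ) (ht : Tendsto (fun i => t i * h i 0 1) atTop (𝓝 τ)) (hτ : |τ| < 2),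
    ∃ s : ℕ → ℝ, Tendsto (fun i => u3 (s i) * h i * u3 (-(t i))) atTop
      (𝓝 (a3 ((1 - τ/2)^2)⁻¹))

def app1Statement : Prop :=
  ∀ (g : Matrix (Fin 3) (Fin 3) ℝ) (hg : g.det = 1)
    (hirr : ∀ R : Matrix (Fin 3) (Fin 3) ℤ, R ≠ 0 → ¬ ∃ c : ℝ, im R = c • (gᵀ * B3 * g)),
    Dense {t : ℝ | ∃ v ∈ Prm (Fin 3), t = (g *ᵥ v) ⬝ᵥ B3 *ᵥ (g *ᵥ v)}

/-- ternary Oppenheim in general form -/
def opp3Statement : Prop :=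
  ∀ (A : Matrix (Fin 3) (Fin 3) ℝ) (hA : Aᵀ = A) (hdet : A.det ≠ 0)
    (hpos : ∃ x, 0 < x ⬝ᵥ A *ᵥ x) (hneg : ∃ x, x ⬝ᵥ A *ᵥ x < 0)
    (hirr : ∀ R : Matrix (Fin 3) (Fin 3) ℤ, R ≠ 0 → ¬ ∃ c : ℝ, im R = c • A),
    Dense {t : ℝ | ∃ v ∈ Prm (Fin 3), t = v ⬝ᵥ A *ᵥ v}

/-- Oppenheim in `n ≥ 3` variables, rank at least 3, off an irrational hyperplane -/
def oppnStatement : Prop :=
  ∀ {ι : Type} [Fintype ι] [DecidableEq ι] (A : Matrix ι ι ℝ) (hA : Aᵀ = A)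
    (hrk : ∃ V : Matrix ι (Fin 3) ℝ, (Vᵀ * A * V).det ≠ 0)
    (hpos : ∃ x, 0 < x ⬝ᵥ A *ᵥ x) (hneg : ∃ x, x ⬝ᵥ A *ᵥ x < 0)
    (hirr : ∀ R : Matrix ι ι ℤ, R ≠ 0 → ¬ ∃ c : ℝ, im R = c • A)
    (m : ι → ℝ) (hm0 : m ≠ 0) (hm : ∀ w : ι → ℤ, w ≠ 0 → ¬ ∃ c : ℝ, iv w = c • m),
    Dense {t : ℝ | ∃ v ∈ Prm ι, m ⬝ᵥ v ≠ 0 ∧ t = v ⬝ᵥ A *ᵥ v}

/-! ## App2: SO(2,1) in SL_4 -/
def B4 : Matrix (Fin 4) (Fin 4) ℝ := !![0,0,1,0; 0,-1,0,0; 1,0,0,0; 0,0,0,0]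
def L4 : Fin 4 → ℝ := ![0,0,0,1]
noncomputable def u4 (t : ℝ) : Matrix (Fin 4) (Fin 4) ℝ :=
  !![1,0,0,0; t,1,0,0; t^2/2,t,1,0; 0,0,0,1]
noncomputable def a4 (l : ℝ) : Matrix (Fin 4) (Fin 4) ℝ :=
  !![l⁻¹,0,0,0; 0,1,0,0; 0,0,l,0; 0,0,0,1]
def n4 (b μ α : ℝ) : Matrix (Fin 4) (Fin 4) ℝ :=
  !![1,0,0,0; 0,1,0,0; α,0,1,μ; b,0,0,1]

def app2Statement : Prop :=
  ∀ (g : Matrix (Fin 4) (Fin 4) ℝ) (hg : g.det = 1)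
    (h1 : ∀ w : Fin 4 → ℤ, w ≠ 0 → ¬ ∃ c : ℝ, iv w = c • (L4 ᵥ* g))
    (h2 : ∀ R : Matrix (Fin 4) (Fin 4) ℤ, R ≠ 0 → ¬ ∃ a b : ℝ,
      im R = a • (gᵀ * B4 * g) + b • vecMulVec (L4 ᵥ* g) (L4 ᵥ* g)),
    Dense {y : ℝ × ℝ | ∃ v ∈ Prm (Fin 4), y = val (B4, L4) (g *ᵥ v)}

/-! ## App3: degenerate case -/
/-- the form `s z + <y,y>_B`; coordinates `y = inl`, `s = inr 0`, `z = inr 1` -/
noncomputable def QB {d : ℕ} (B : Matrix (Fin d) (Fin d) ℝ) :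
    Matrix (Fin d ⊕ Fin 2) (Fin d ⊕ Fin 2) ℝ :=
  Matrix.fromBlocks B 0 0 !![0, 1/2; 1/2, 0]
def LB (d : ℕ) : (Fin d ⊕ Fin 2) → ℝ := Sum.elim 0 ![1, 0]

def app3Statement : Prop :=
  ∀ (d : ℕ) (hd : 2 ≤ d) (B : Matrix (Fin d) (Fin d) ℝ)
    (hB : B = 1 ∨ (d = 2 ∧ ∀ i j, B i j = if i = j then 0 else 1))
    (g : Matrix (Fin d ⊕ Fin 2) (Fin d ⊕ Fin 2) ℝ) (hg : g.det = 1)
    (h1 : ∀ w : (Fin d ⊕ Fin 2) → ℤ, w ≠ 0 → ¬ ∃ c : ℝ, iv w = c • (LB d ᵥ* g))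
    (h2 : ∀ R : Matrix (Fin d ⊕ Fin 2) (Fin d ⊕ Fin 2) ℤ, R ≠ 0 → ¬ ∃ a b : ℝ,
      im R = a • (gᵀ * QB B * g) + b • vecMulVec (LB d ᵥ* g) (LB d ᵥ* g)),
    Dense {y : ℝ × ℝ | ∃ v ∈ Prm (Fin d ⊕ Fin 2), y = val (QB B, LB d) (g *ᵥ v)}

/-! ## M10 reductions -/

/-- condition 2 -/
def Cond2 {ι : Type} [Fintype ι] (Q : Matrix ι ι ℝ) (L : ι → ℝ) : Prop :=
  ∀ α β : ℝ, (α, β) ≠ (0, 0) → ¬ ∃ c : ℝ, ∃ B : Matrix ι ι ℚ,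
    α • Q + β • Matrix.vecMulVec L L = c • B.map (fun q : ℚ => (q : ℝ))

def pair4Statement : Prop :=
  ∀ (Q : Matrix (Fin 4) (Fin 4) ℝ) (L : Fin 4 → ℝ) (hQ : Qᵀ = Q) (hL : L ≠ 0)
    (hnd : ∀ k, L ⬝ᵥ k = 0 → (∀ k', L ⬝ᵥ k' = 0 → k ⬝ᵥ Q *ᵥ k' = 0) → k = 0)
    (hpos : ∃ k, L ⬝ᵥ k = 0 ∧ 0 < k ⬝ᵥ Q *ᵥ k) (hneg : ∃ k, L ⬝ᵥ k = 0 ∧ k ⬝ᵥ Q *ᵥ k < 0)
    (h2 : Cond2 Q L),
    Dense {y : ℝ × ℝ | ∃ v ∈ Prm (Fin 4), y = val (Q, L) v}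

/-- reduction of the pairs with `Q | ker L` indefinite of rank at least three to `n = 4` -/
def reduce4Statement : Prop :=
  ∀ (n : ℕ) (hn : 4 ≤ n) (Q : Matrix (Fin n) (Fin n) ℝ) (L : Fin n → ℝ)
    (hQ : Qᵀ = Q) (hL : L ≠ 0)
    (hrk : ∃ V : Matrix (Fin n) (Fin 3) ℝ, L ᵥ* V = 0 ∧ (Vᵀ * Q * V).det ≠ 0)
    (hpos : ∃ k, L ⬝ᵥ k = 0 ∧ 0 < k ⬝ᵥ Q *ᵥ k) (hneg : ∃ k, L ⬝ᵥ k = 0 ∧ k ⬝ᵥ Q *ᵥ k < 0)
    (h2 : Cond2 Q L),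
    ∃ M : Matrix (Fin n) (Fin 4) ℤ, (∀ v ∈ Prm (Fin 4), im M *ᵥ v ∈ Prm (Fin n)) ∧
      L ᵥ* im M ≠ 0 ∧
      (∀ k, (L ᵥ* im M) ⬝ᵥ k = 0 → (∀ k', (L ᵥ* im M) ⬝ᵥ k' = 0 →
        k ⬝ᵥ ((im M)ᵀ * Q * im M) *ᵥ k' = 0) → k = 0) ∧
      (∃ k, (L ᵥ* im M) ⬝ᵥ k = 0 ∧ 0 < k ⬝ᵥ ((im M)ᵀ * Q * im M) *ᵥ k) ∧
      (∃ k, (L ᵥ* im M) ⬝ᵥ k = 0 ∧ k ⬝ᵥ ((im M)ᵀ * Q * im M) *ᵥ k < 0) ∧
      Cond2 ((im M)ᵀ * Q * im M) (L ᵥ* im M)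

/-- degenerate case -/
def pairdegStatement : Prop :=
  ∀ (n : ℕ) (hn : 4 ≤ n) (Q : Matrix (Fin n) (Fin n) ℝ) (L : Fin n → ℝ)
    (hQ : Qᵀ = Q) (hdet : Q.det ≠ 0) (hL : L ≠ 0)
    (e : Fin n → ℝ) (he0 : e ≠ 0) (heL : L ⬝ᵥ e = 0) (he : ∀ k, L ⬝ᵥ k = 0 → e ⬝ᵥ Q *ᵥ k = 0)
    (hcase : n = 4 ∨ (∀ k, L ⬝ᵥ k = 0 → 0 ≤ k ⬝ᵥ Q *ᵥ k) ∨ (∀ k, L ⬝ᵥ k = 0 → k ⬝ᵥ Q *ᵥ k ≤ 0))
    (h2 : Cond2 Q L),
    Dense {y : ℝ × ℝ | ∃ v ∈ Prm (Fin n), y = val (Q, L) v}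


end QL
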