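import Pool.Agent.Helper27_QL.Rank3
import Pool.Agent.Helper27_QL.App2
import Pool.Agent.Helper27_QL.App3
import Pool.Agent.Helper27_QL.CompB
import Pool.Agent.Helper27_QL.Wt
import Pool.Agent.Helper13_QL.Minset
import Pool.Agent.Helper14_QL.Alpha4
import Pool.Agent.Helper14_QL.Facts4
import Pool.Agent.Helper14_QL.Struct4
import Pool.Agent.Helper14_QL.Tubes
import Pool.Agent.Helper24_QL.Opp3
import Pool.Agent.Helper24_QL.Oppn
import Pool.Agent.Helper24_QL.Red4
import Pool.Agent.Helper24_QL.StabB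
import Pool.Agent.Helper25_QL.App1
import Pool.Agent.Helper25_QL.Curve3
import Pool.Agent.Helper25_QL.Beta4
import Pool.Agent.Helper60_QL.Limit3
import Pool.Agent.Helper60_QL.Final
import Pool.Agent.Helper60_QL.Wrap
import Pool.Agent.Helper76_QL.DenseLin
import Pool.Agent.Helper76_QL.Mahler
import Pool.Agent.Helper76_QL.So3
import Pool.Agent.Helper9_QL.Ray
import Pool.Agent.Helper9_QL.Unif
import Pool.Agent.Helper9_QL.Asym
import Pool.Agent.Helper9_QL.Plane
import Pool.Agent.Helper9_QL.Skew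
import Pool.Agent.Helper9_QL.Trich
import Pool.Agent.Helper96_QL.Intervals
import Pool.Agent.Helper96_QL.PairDeg
import Pool.Agent.Helper97_QL.NL
import Pool.Agent.Helper97_QL.LimitB
import Pool.Agent.Helper97_QL.BetaB
import Pool.Agent.Helper72_QL.Beta3
import Pool.Agent.Helper72_QL.Beta4
import Pool.Agent.Helper13_QL.Curve4
import Pool.Agent.Helper13_QL.CurveB
import Pool.Agent.Helper14_QB.AlgB
import Pool.Agent.Helper14_QB.FixB
import Pool.Agent.Helper14_QB.FactsB
import Pool.Agent.Helper14_QB.FinalB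
import Pool.Agent.Helper60_QL.Limit4
import Pool.Agent.Helper60_QL.AlphaB
import Pool.Agent.Helper72_QL.Beta1
import Pool.Agent.Helper72_QL.Beta2
import Pool.Agent.Helper72_QL.Struct3
import Pool.Agent.Helper76_QL.ConeB
import Pool.Agent.Helper76_QL.RetFix

set_option autoImplicit false
open Matrix
namespace QL.Main

theorem NL : NLStatement := H97.NL remez' Jc_spec cover_two nondiv' H76.mahlerS
theorem NL_seq : NL_seqStatement := H97.NL_seq remez' Jc_spec cover_two nondiv' H76.mahlerS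
theorem NL_seq2 : NL_seq2Statement := H97.NL_seq2 remez' Jc_spec cover_two nondiv' H76.mahlerS
theorem unif : unifdataStatement := unifdata H60.pl_mul_stmt H60.growth_stmt
theorem ndp : nd_pathStatement := nd_path H60.pl_mul_stmt H60.growth_stmt
theorem minset : minsetStatement := H13.minset NL UAct_ray unif H60.goodDir_dense_stmt
theorem TL3 : TL3_factsStatement := H25.TL3_facts H14.sing_tube1 H14.sing_tube2 H14.uniq_tube1
  H14.uniq_tube2_line H14.fix_tube1 H14.fix_tube2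
theorem TL4 : TL4_factsStatement := H14.TL4_facts H76.pencilS

theorem TLB : TLB_factsStatement := H14.TLB_facts H76.pencilS

theorem app1 : app1Statement :=
  H25.app1 TL3 (H25.curve3 minset TL3 (H72.alpha3 H60.drift_stmt) (H25.beta1_3 H76.so3_triS)
    (H72.beta2_3 H76.so3_driftS)
    (H72.beta3_3 H60.DD_gam_stmt H60.DD_left_stmt H60.DD_closed_stmt))
    (H60.limit3 NL_seq ndp UAct_ray wt_gen ract_diag)

theorem oppn : oppnStatement := H24.oppn (H24.opp3 app1)

theorem app2' : app2Statement :=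
  app2 H14.conj4 (H13.curve4 minset H14.U4_exists TL4 H14.fixed4 (H14.alpha4 H60.drift_stmt)
    H14.struct4 (H72.beta1_4 H76.so3_triS H14.hblock)
    (H72.beta2_4 H76.so3_driftS H14.hblock H14.alg4)
    (H72.beta3_4 H60.DD_gam_stmt H60.DD_left_stmt H60.DD_closed_stmt H14.alg4 H14.fixed4)
    (H72.beta4_4 H14.hblock))
    (H60.limit4 NL_seq ndp UAct_ray wt_gen ract_diag TL4) (H60.final4 H76.dense_linS oppn TL4)

theorem app3' : app3Statement :=
  app3 TLB (H13.curveB minset H14.UB_exists TLB H14.algB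
    (H97B.betaB (H24.structB H14.fixedB H14.algB))
    (H60.alphaB H14.algB H14.fixedB)
    (compB trichB (H76.coneB planeB H60.pl_mul_stmt) (H76.retfixB H60.pl_mul_stmt) planeB
      (skewB TLB H60.pl_mul_stmt) H14.fix2B H14.algB))
    (H97.limitB NL_seq2 ndp UAct_ray asymB H14.algB TLB) (H14.finalB H76.dense_linS oppn)

/-- the frozen statement S17215 -/
theorem main :
    ∀ n : ℕ, 4 ≤ n →
    ∀ A : Matrix (Fin n) (Fin n) ℝ, A.IsSymm → A.det ≠ 0 →
    ∀ l : Fin n → ℝ, l ≠ 0 →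
    (∀ β : ℝ, (∃ x : Fin n → ℝ, 0 < x ⬝ᵥ A *ᵥ x + β * (l ⬝ᵥ x) ^ 2) ∧
              (∃ y : Fin n → ℝ, y ⬝ᵥ A *ᵥ y + β * (l ⬝ᵥ y) ^ 2 < 0)) →
    (∀ α β : ℝ, (α, β) ≠ (0, 0) →
      ¬ ∃ c : ℝ, ∃ B : Matrix (Fin n) (Fin n) ℚ,
        α • A + β • Matrix.vecMulVec l l = c • B.map (fun q : ℚ => (q : ℝ))) →
    Dense {p : ℝ × ℝ | ∃ x : Fin n → ℤ, x ≠ 0 ∧ Finset.univ.gcd x = 1 ∧
      p = ((fun i => (x i : ℝ)) ⬝ᵥ A *ᵥ (fun i => (x i : ℝ)),
           l ⬝ᵥ (fun i => (x i : ℝ)))} :=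
  Pool.MP_6429f2_nt.final rank3 (H24.pair4 app2') (H24.reduce4 H76.pencilS)
    (pairdeg app3')

end QL.Main
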