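import Pool.Agent.Helper27_QL.Final

set_option autoImplicit false
open Matrix
namespace QL

theorem ker_exists {n m : ℕ} (h : m < n) (F : Matrix (Fin m) (Fin n) ℝ) :
    ∃ k : Fin n → ℝ, k ≠ 0 ∧ F *ᵥ k = 0 := by
  have h1 : LinearMap.ker F.mulVecLin ≠ ⊥ := by
    apply LinearMap.ker_ne_bot_of_finrank_lt
    simpa using h
  obtain ⟨k, hk, hk0⟩ := (Submodule.ne_bot_iff _).1 h1
  exact ⟨k, hk0, by simpa using hk⟩

theorem rank3_step {n : ℕ} (Q : Matrix (Fin n) (Fin n) ℝ) (L : Fin n → ℝ) (hQ : Qᵀ = Q)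
    (hdet : Q.det ≠ 0) (hL : L ≠ 0)
    (h : 5 ≤ n ∨ (4 ≤ n ∧ ∀ k, L ⬝ᵥ k = 0 → (∀ k', L ⬝ᵥ k' = 0 → k ⬝ᵥ Q *ᵥ k' = 0) → k = 0))
    (j : ℕ) (hj : j ≤ 2) (v : Fin j → Fin n → ℝ)
    (hort : ∀ i i', i ≠ i' → v i ⬝ᵥ Q *ᵥ v i' = 0) (hLv : ∀ i, L ⬝ᵥ v i = 0)
    (hne : ∀ i, v i ⬝ᵥ Q *ᵥ v i ≠ 0) :
    ∃ w, L ⬝ᵥ w = 0 ∧ (∀ i, w ⬝ᵥ Q *ᵥ v i = 0) ∧ w ⬝ᵥ Q *ᵥ w ≠ 0 := by
  have hsym : ∀ x y : Fin n → ℝ, x ⬝ᵥ Q *ᵥ y = y ⬝ᵥ Q *ᵥ x := by
    intro x y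
    rw [dotProduct_mulVec, ← mulVec_transpose, hQ, dotProduct_comm]
  by_contra hcon
  push Not at hcon
  -- polar
  have hpol : ∀ k k', L ⬝ᵥ k = 0 → (∀ i, k ⬝ᵥ Q *ᵥ v i = 0) → L ⬝ᵥ k' = 0 →
      (∀ i, k' ⬝ᵥ Q *ᵥ v i = 0) → k ⬝ᵥ Q *ᵥ k' = 0 := by
    intro k k' h1 h2 h3 h4
    have e1 := hcon k h1 h2
    have e2 := hcon k' h3 h4
    have e3 := hcon (k + k') (by rw [dotProduct_add, h1, h3, add_zero])
      (fun i => by rw [add_dotProduct, h2, h4, add_zero])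
    rw [mulVec_add, add_dotProduct, dotProduct_add, dotProduct_add, e1, e2, hsym k' k] at e3
    linarith
  have hrad : ∀ k, L ⬝ᵥ k = 0 → (∀ i, k ⬝ᵥ Q *ᵥ v i = 0) → ∀ k', L ⬝ᵥ k' = 0 →
      k ⬝ᵥ Q *ᵥ k' = 0 := by
    intro k h1 h2 k' h3
    set c : Fin j → ℝ := fun i => (k' ⬝ᵥ Q *ᵥ v i) / (v i ⬝ᵥ Q *ᵥ v i) with hc
    set s : Fin n → ℝ := ∑ i, c i • v i with hs
    have hLs : L ⬝ᵥ s = 0 := by
      rw [hs, dotProduct_sum]
      exact Finset.sum_eq_zero fun i _ => by rw [dotProduct_smul, hLv, smul_zero]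
    have hsv : ∀ i, s ⬝ᵥ Q *ᵥ v i = k' ⬝ᵥ Q *ᵥ v i := by
      intro i
      rw [hs, sum_dotProduct, Finset.sum_eq_single i]
      · rw [smul_dotProduct, hc, smul_eq_mul, div_mul_cancel₀ _ (hne i)]
      · intro b _ hb
        rw [smul_dotProduct, hort b i hb, smul_zero]
      · intro h; exact absurd (Finset.mem_univ i) h
    have hks : k ⬝ᵥ Q *ᵥ s = 0 := by
      rw [hs, mulVec_sum, dotProduct_sum]
      exact Finset.sum_eq_zero fun i _ => by rw [mulVec_smul, dotProduct_smul, h2, smul_zero]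
    have e1 := hpol k (k' - s) h1 h2 (by rw [dotProduct_sub, h3, hLs, sub_zero])
      (fun i => by rw [sub_dotProduct, hsv, sub_self])
    rw [mulVec_sub, dotProduct_sub, hks, sub_zero] at e1
    exact e1
  rcases h with h5 | ⟨h4, hnd⟩
  · have hu : IsUnit Q.det := isUnit_iff_ne_zero.2 hdet
    set f : Fin n → ℝ := Q⁻¹ *ᵥ L with hf
    have hQf : Q *ᵥ f = L := by
      rw [hf, mulVec_mulVec, Matrix.mul_nonsing_inv _ hu, one_mulVec]
    obtain ⟨k, hk0, hk⟩ := ker_exists (n := n) (m := j + 2) (by omega)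
      (Matrix.of (Fin.cons L (Fin.cons f (fun i => Q *ᵥ v i)) : Fin (j+2) → Fin n → ℝ))
    have hkL : L ⬝ᵥ k = 0 := by
      have := congrFun hk 0
      simpa [mulVec] using this
    have hkf : f ⬝ᵥ k = 0 := by
      have := congrFun hk (Fin.succ 0)
      simpa [mulVec] using this
    have hkv : ∀ i, k ⬝ᵥ Q *ᵥ v i = 0 := by
      intro i
      have := congrFun hk (Fin.succ (Fin.succ i))
      rw [dotProduct_comm]
      exact this
    have h6 := hrad k hkL hkv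
    -- Q k = c L
    have hLL : L ⬝ᵥ L ≠ 0 := fun h => hL (dotProduct_self_eq_zero.1 h)
    have h7 : Q *ᵥ k = ((L ⬝ᵥ Q *ᵥ k) / (L ⬝ᵥ L)) • L := by
      refine dotProduct_eq _ _ fun x => ?_
      have h8 := h6 (x - ((L ⬝ᵥ x) / (L ⬝ᵥ L)) • L) (by
        rw [dotProduct_sub, dotProduct_smul, smul_eq_mul, div_mul_cancel₀ _ hLL, sub_self])
      rw [hsym, sub_dotProduct, smul_dotProduct, sub_eq_zero] at h8
      rw [dotProduct_comm, h8, smul_dotProduct, smul_eq_mul, smul_eq_mul]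
      ring
    have h8 : k = ((L ⬝ᵥ Q *ᵥ k) / (L ⬝ᵥ L)) • f := by
      have := congrArg (fun y => Q⁻¹ *ᵥ y) h7
      simp only [mulVec_mulVec, Matrix.nonsing_inv_mul _ hu, one_mulVec, mulVec_smul] at this
      exact this
    have h9 : ((L ⬝ᵥ Q *ᵥ k) / (L ⬝ᵥ L)) * (f ⬝ᵥ f) = 0 := by
      rw [← smul_eq_mul, ← dotProduct_smul, ← h8, hkf]
    rcases mul_eq_zero.1 h9 with h10 | h10
    · rw [h10, zero_smul] at h8; exact hk0 h8
    · have := dotProduct_self_eq_zero.1 h10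
      rw [this, smul_zero] at h8; exact hk0 h8
  · obtain ⟨k, hk0, hk⟩ := ker_exists (n := n) (m := j + 1) (by omega)
      (Matrix.of (Fin.cons L (fun i => Q *ᵥ v i) : Fin (j+1) → Fin n → ℝ))
    have hkL : L ⬝ᵥ k = 0 := by
      have := congrFun hk 0
      simpa [mulVec] using this
    have hkv : ∀ i, k ⬝ᵥ Q *ᵥ v i = 0 := by
      intro i
      have := congrFun hk (Fin.succ i)
      rw [dotProduct_comm]
      exact this
    exact hk0 (hnd k hkL (hrad k hkL hkv))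

theorem rank3 : rank3Statement := by
  intro n Q L hQ hdet hL h
  have hsym : ∀ x y : Fin n → ℝ, x ⬝ᵥ Q *ᵥ y = y ⬝ᵥ Q *ᵥ x := by
    intro x y
    rw [dotProduct_mulVec, ← mulVec_transpose, hQ, dotProduct_comm]
  obtain ⟨v1, hL1, -, h1⟩ := rank3_step Q L hQ hdet hL h 0 (by norm_num) (fun i => i.elim0)
    (fun i => i.elim0) (fun i => i.elim0) (fun i => i.elim0)
  obtain ⟨v2, hL2, h21, h2⟩ := rank3_step Q L hQ hdet hL h 1 (by norm_num) (fun _ => v1)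
    (fun i i' hi => absurd (Subsingleton.elim i i') hi) (fun _ => hL1) (fun _ => h1)
  have h21 : v2 ⬝ᵥ Q *ᵥ v1 = 0 := h21 0
  obtain ⟨v3, hL3, h3v, h3⟩ := rank3_step Q L hQ hdet hL h 2 (by norm_num) ![v1, v2]
    (by
      intro i i' hi
      fin_cases i <;> fin_cases i' <;> simp at hi ⊢
      · rw [hsym]; exact h21
      · exact h21)
    (by intro i; fin_cases i <;> simp [hL1, hL2])
    (by intro i; fin_cases i <;> simp [h1, h2])
  have h31 : v3 ⬝ᵥ Q *ᵥ v1 = 0 := h3v 0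
  have h32 : v3 ⬝ᵥ Q *ᵥ v2 = 0 := h3v 1
  refine ⟨(Matrix.of ![v1, v2, v3])ᵀ, ?_, ?_⟩
  · ext i
    fin_cases i <;> simp [vecMul, dotProduct] <;>
    [exact hL1; exact hL2; exact hL3]
  · have hent : ∀ i j, ((Matrix.of ![v1, v2, v3])ᵀᵀ * Q * (Matrix.of ![v1, v2, v3])ᵀ) i j =
        (![v1, v2, v3] i) ⬝ᵥ Q *ᵥ (![v1, v2, v3] j) := by
      intro i j
      rw [transpose_transpose, Matrix.mul_assoc, Matrix.mul_apply]
      simp only [dotProduct, Matrix.mul_apply, mulVec, Matrix.of_apply, transpose_apply]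
    rw [Matrix.det_fin_three]
    simp only [hent]
    simp only [Matrix.cons_val_zero, Matrix.cons_val_one, Matrix.cons_val]
    rw [hsym v1 v2, hsym v1 v3, hsym v2 v3, h21, h31, h32]
    simp [h1, h2, h3]

end QL
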